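import Pool.Agent.Run7.h718.NE.Main

/-!
Pluricanonical forms as covariant tensors.
-/

set_option autoImplicit false
set_option linter.overlappingInstances false
set_option linter.unusedSectionVars false
set_option maxHeartbeats 1000000
set_option synthInstance.maxHeartbeats 400000

open FF Pool.Agent.W602.GT Pool.Agent.W603.LV Pool.Agent.W619.PQ Pool.Agent.Y172

namespace Pool.Agent.Run7.h718.NE

section

variable {K : Type} [Field K] [Algebra ℂ K] {w : ℕ}

/-- the form `dx` -/
noncomputable def detM (x : Fin w → K) :
    MultilinearMap K (fun _ : Fin w => Derivation ℂ K K) K :=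
  (Matrix.detRowAlternating (n := Fin w) (R := K)).toMultilinearMap.compLinearMap
    fun _ => LinearMap.pi fun j => evalD (x j)

theorem detM_apply (x : Fin w → K) (D : Fin w → Derivation ℂ K K) :
    detM x D = (Matrix.of fun i j => D i (x j)).det := rfl

theorem upd_eq {N : ℕ} [DecidableEq (Fin N × Fin w)] (D : Fin N × Fin w → Derivation ℂ K K)
    (p : Fin N × Fin w) (v : Derivation ℂ K K) (a : Fin N) :
    (fun i => Function.update D p v (a, i)) =
      if a = p.1 then Function.update (fun i => D (a, i)) p.2 v else fun i => D (a, i) := by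
  funext i
  split_ifs with h
  · by_cases h2 : i = p.2
    · have h3 : (a, i) = p := Prod.ext h h2
      subst h2
      rw [Function.update_self, h3, Function.update_self]
    · have h3 : (a, i) ≠ p := fun h4 => h2 (congrArg Prod.snd h4)
      rw [Function.update_of_ne h2, Function.update_of_ne h3]
  · have h3 : (a, i) ≠ p := fun h4 => h (congrArg Prod.fst h4)
    rw [Function.update_of_ne h3]

/-- the form `g (dx) ^ N` as a tensor -/
noncomputable def tenM (x : Fin w → K) (N : ℕ) (g : K) :
    MultilinearMap K (fun _ : Fin N × Fin w => Derivation ℂ K K) K where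
  toFun D := g * ∏ a, detM x fun i => D (a, i)
  map_update_add' := by
    intro _ D p u v
    have h1 : ∀ t : Derivation ℂ K K, (∏ a, detM x fun i => Function.update D p t (a, i)) =
        detM x (Function.update (fun i => D (p.1, i)) p.2 t) *
          ∏ a ∈ Finset.univ.erase p.1, detM x fun i => D (a, i) := by
      intro t
      rw [← Finset.mul_prod_erase Finset.univ _ (Finset.mem_univ p.1)]
      congr 1
      · rw [upd_eq, if_pos rfl]
      · refine Finset.prod_congr rfl fun a ha => ?_
        rw [upd_eq, if_neg (Finset.ne_of_mem_erase ha)]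
    rw [h1, h1, h1, (detM x).map_update_add]
    ring
  map_update_smul' := by
    intro _ D p c v
    have h1 : ∀ t : Derivation ℂ K K, (∏ a, detM x fun i => Function.update D p t (a, i)) =
        detM x (Function.update (fun i => D (p.1, i)) p.2 t) *
          ∏ a ∈ Finset.univ.erase p.1, detM x fun i => D (a, i) := by
      intro t
      rw [← Finset.mul_prod_erase Finset.univ _ (Finset.mem_univ p.1)]
      congr 1
      · rw [upd_eq, if_pos rfl]
      · refine Finset.prod_congr rfl fun a ha => ?_
        rw [upd_eq, if_neg (Finset.ne_of_mem_erase ha)]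
    rw [h1, h1, (detM x).map_update_smul, smul_eq_mul, smul_eq_mul]
    ring

theorem tenM_apply (x : Fin w → K) (N : ℕ) (g : K) (D : Fin N × Fin w → Derivation ℂ K K) :
    tenM x N g D = g * ∏ a, (Matrix.of fun i j => D (a, i) (x j)).det := rfl

/-- the tensor of rank `N w` -/
noncomputable def tenF (x : Fin w → K) (N : ℕ) (g : K) :
    MultilinearMap K (fun _ : Fin (N * w) => Derivation ℂ K K) K :=
  (tenM x N g).domDomCongr finProdFinEquiv

theorem tenF_apply (x : Fin w → K) (N : ℕ) (g : K) (D : Fin (N * w) → Derivation ℂ K K) :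
    tenF x N g D = g * ∏ a, (Matrix.of fun i j => D (finProdFinEquiv (a, i)) (x j)).det := rfl

theorem tenF_smul (x : Fin w → K) (N : ℕ) (g r : K) : r • tenF x N g = tenF x N (r * g) := by
  ext D
  rw [MultilinearMap.smul_apply, tenF_apply, tenF_apply, smul_eq_mul, mul_assoc]

theorem tenF_ne {x : Fin w → K} {E : Fin w → Derivation ℂ K K}
    (hE : ∀ i j, E i (x j) = if i = j then 1 else 0) (N : ℕ) {g : K} (hg : g ≠ 0) :
    tenF x N g ≠ 0 := by
  intro h0
  have h1 := congrArg (fun T : MultilinearMap K (fun _ : Fin (N * w) => Derivation ℂ K K) K =>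
    T fun i => E (finProdFinEquiv.symm i).2) h0
  have h2 : tenF x N g (fun i => E (finProdFinEquiv.symm i).2) = g := by
    rw [tenF_apply]
    have h3 : ∀ a : Fin N, (Matrix.of fun i j =>
        E (finProdFinEquiv.symm (finProdFinEquiv (a, i))).2 (x j)) =
        (1 : Matrix (Fin w) (Fin w) K) := by
      intro a
      ext i j
      rw [Matrix.of_apply, Equiv.symm_apply_apply, hE, Matrix.one_apply]
    simp only [h3, Matrix.det_one, Finset.prod_const_one, mul_one]
  change tenF x N g (fun i => E (finProdFinEquiv.symm i).2) = 0 at h1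
  rw [h2] at h1
  exact hg h1

/-- **Regular pluricanonical forms are regular tensors.** -/
theorem tenF_reg [Algebra.EssFiniteType ℂ K] (hw : Algebra.trdeg ℂ K = w) {x : Fin w → K}
    (hx : IsTranscendenceBasis ℂ x) {E : Fin w → Derivation ℂ K K}
    (hE : ∀ i j, E i (x j) = if i = j then 1 else 0) {N : ℕ}
    {ω : (Fin w → Derivation ℂ K K) → K} (hω : IsPluri N ω)
    (hreg : ∀ P : Place ℂ K, Divisorial w P → RegAt P ω) : RegTensor w (tenF x N (ω E)) := by
  classical
  intro P hP D hD
  obtain ⟨yP, EP, i0, hl⟩ := exists_loc hw hP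
  obtain ⟨δ, hδ⟩ : ∃ δ : K, δ = (Matrix.of fun i j => EP i (x j)).det := ⟨_, rfl⟩
  have h1 : ω EP = δ ^ N * ω E := by
    rw [hδ]
    exact pluri_coord hx hE hω EP
  have h2 : ∀ G : Fin w → Derivation ℂ K K, (Matrix.of fun i j => G i (x j)).det =
      (Matrix.of fun i j => G i (yP j)).det * δ := by
    intro G
    rw [hδ, ← Matrix.det_mul]
    congr 1
    ext k j
    rw [Matrix.mul_apply, Matrix.of_apply]
    have h4 := congrArg (fun D : Derivation ℂ K K => D (x j))
      (Pool.Agent.W73.PG.PULL.expand yP hl.bas EP hl.dual (G k))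
    rw [← h4]
    exact ND.sum_smul_app _ _ _
  have h3 : tenF x N (ω E) D = ω EP *
      ∏ a, (Matrix.of fun i j => D (finProdFinEquiv (a, i)) (yP j)).det := by
    rw [tenF_apply, h1]
    have h4 : ∀ a : Fin N, (Matrix.of fun i j => D (finProdFinEquiv (a, i)) (x j)).det =
        (Matrix.of fun i j => D (finProdFinEquiv (a, i)) (yP j)).det * δ := fun a =>
      h2 fun i => D (finProdFinEquiv (a, i))
    simp only [h4, Finset.prod_mul_distrib, Finset.prod_const, Finset.card_univ, Fintype.card_fin]
    ring
  rw [h3]
  refine P.reg_mul (hreg P hP EP hl.pres) ?_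
  refine Finset.prod_induction _ (fun a => P.Reg a) (fun a b ha hb => P.reg_mul ha hb)
    P.reg_one fun a _ => ?_
  exact ge_det P _ fun i j => hD _ _ (hl.reg j)

end

end Pool.Agent.Run7.h718.NE
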