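import Pool.Agent.Run7.h718.NE.Div

/-!
Regular tensors which come from a curve.
-/

set_option autoImplicit false
set_option linter.overlappingInstances false
set_option linter.unusedSectionVars false
set_option maxHeartbeats 1000000
set_option synthInstance.maxHeartbeats 400000

open FF Pool.Agent.W602.GT Pool.Agent.W603.LV Pool.Agent.W619.PQ Pool.Agent.Y172
open Pool.Agent.Run7.h718.ND (Mer sg IsRatl im im_ne im_inj zz zz_ne pol im_pol laurent cmp sg_im
  pol_ne pol_zero)

namespace Pool.Agent.Run7.h718.NE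

/-- the tensor `h (dt) ^ N` -/
noncomputable def tenD {K : Type} [Field K] [Algebra ℂ K] (t : K) (N : ℕ) (h : K) :
    MultilinearMap K (fun _ : Fin N => Derivation ℂ K K) K :=
  h • (MultilinearMap.mkPiAlgebra K (Fin N) K).compLinearMap fun _ => evalD t

theorem tenD_apply {K : Type} [Field K] [Algebra ℂ K] (t : K) (N : ℕ) (h : K)
    (D : Fin N → Derivation ℂ K K) : tenD t N h D = h * ∏ a, D a t := by
  unfold tenD
  rw [smul_apply, MultilinearMap.compLinearMap_apply, MultilinearMap.mkPiAlgebra_apply]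
  rfl

section

variable {K F : Type} [Field K] [Algebra ℂ K] [Field F] [Algebra ℂ F] {w N : ℕ}

/-- the pull-back of `h (dt) ^ N` -/
theorem pval_tenD (τ : K →ₐ[ℂ] F) {x : Fin w → K} (hx : IsTranscendenceBasis ℂ x)
    {E : Fin w → Derivation ℂ K K} (hE : ∀ i j, E i (x j) = if i = j then 1 else 0) (t : K)
    (h : K) (D : Fin N → Derivation ℂ F F) :
    pval τ x E (tenD t N h) D = tenD (τ t) N (τ h) D := by
  unfold pval
  rw [tenD_apply]
  have h1 : ∀ a, D a (τ t) = ∑ c, D a (τ (x c)) * τ (E c t) := fun a => chain' τ hx hE _ _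
  simp only [h1, prod_sum_univ, Finset.mul_sum]
  refine Finset.sum_congr rfl fun J _ => ?_
  unfold comp
  rw [tenD_apply, map_mul, map_prod, Finset.prod_mul_distrib]
  ring

/-- pull-backs of regular tensors `h (dt) ^ N` -/
theorem reg_tenD [Algebra.EssFiniteType ℂ K] {M : ℕ} (hw : Algebra.trdeg ℂ K = w)
    (hM : Algebra.trdeg ℂ F = M) (τ : K →ₐ[ℂ] F) {t h : K} (hr : RegTensor w (tenD t N h)) :
    RegTensor M (tenD (τ t) N (τ h)) := by
  obtain ⟨x, E, hx, hE⟩ := exists_crd hw (k := ℂ) (K := K)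
  intro Q hQ D hD
  rw [← pval_tenD τ hx hE]
  exact reg_pval hw hM τ hx hE hr Q hQ hD

/-- a derivation which does not kill a transcendental element -/
theorem exists_der_one {t : F} (ht : Transcendental ℂ t) : ∃ D : Derivation ℂ F F, D t = 1 := by
  have h1 : AlgebraicIndependent ℂ (fun _ : Unit => t) := by
    rw [algebraicIndependent_unique_type_iff]
    exact ht
  obtain ⟨κ, s, hs⟩ := basis_ext h1
  obtain ⟨D, hD⟩ := exists_der _ hs fun _ => (1 : F)
  exact ⟨D, hD (Sum.inl ())⟩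

/-- **No regular tensor comes from the line.** -/
theorem no_line [Algebra.EssFiniteType ℂ F] {q : ℂ} (hq0 : q ≠ 0)
    (hqr : ∀ n : ℕ, 0 < n → q ^ n ≠ 1) (σ : F →ₐ[ℂ] F) (κ : F →ₐ[ℂ] Mer)
    (hκ : ∀ r, κ (σ r) = sg q hq0 (κ r)) {M : ℕ} (hM : Algebra.trdeg ℂ F = M) {Z : F}
    (hZ : κ Z = im zz) (hZt : Transcendental ℂ Z) (hN : 0 < N) {a : F} (ha : a ≠ 0)
    (hr : RegTensor M (tenD Z N a)) : False := by
  classical
  have hκi : Function.Injective κ := κ.toRingHom.injective
  obtain ⟨X, E, hX, hE, H, hH, hfin⟩ := tensor_finite hM N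
  -- a component which is not zero
  obtain ⟨D1, hD1⟩ := exists_der_one hZt
  obtain ⟨k0, hk0⟩ : ∃ k0, E k0 Z ≠ 0 := by
    by_contra hno
    push Not at hno
    have h1 := congrArg (fun D : Derivation ℂ F F => D Z)
      (Pool.Agent.W73.PG.PULL.expand X hX E hE D1)
    have h2 : (∑ b, D1 (X b) • E b) Z = 0 := by
      rw [ND.sum_smul_app]
      exact Finset.sum_eq_zero fun b _ => by rw [hno b, mul_zero]
    change (∑ b, D1 (X b) • E b) Z = D1 Z at h1
    rw [h2, hD1] at h1
    exact zero_ne_one h1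
  let G : Submodule ℂ F :=
    { carrier := {c | RegTensor M (tenD Z N c)}
      zero_mem' := by
        intro Q _ D _
        rw [tenD_apply, zero_mul]
        exact Q.reg_zero
      add_mem' := by
        intro a b ha hb Q hQ D hD
        rw [tenD_apply, add_mul, ← tenD_apply, ← tenD_apply]
        exact Q.reg_add (ha Q hQ D hD) (hb Q hQ D hD)
      smul_mem' := by
        intro c a ha Q hQ D hD
        rw [tenD_apply, Algebra.smul_def, mul_assoc, ← tenD_apply]
        exact Q.reg_mul (Q.reg_const c) (ha Q hQ D hD) }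
  have hGf : FiniteDimensional ℂ G := by
    let φ : G →ₗ[ℂ] H :=
      { toFun := fun c => ⟨(c : F) * (E k0 Z) ^ N, by
          have h1 := hfin _ c.2 fun _ => k0
          unfold comp at h1
          rw [tenD_apply, Finset.prod_const, Finset.card_univ, Fintype.card_fin] at h1
          exact h1⟩
        map_add' := fun a b => Subtype.ext (add_mul _ _ _)
        map_smul' := fun c a => Subtype.ext (smul_mul_assoc _ _ _) }
    refine FiniteDimensional.of_injective φ fun a b hab => ?_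
    have h1 : (a : F) * (E k0 Z) ^ N = (b : F) * (E k0 Z) ^ N := congrArg Subtype.val hab
    exact Subtype.ext (mul_right_cancel₀ (pow_ne_zero _ hk0) h1)
  have hσZ : σ Z = q • Z := by
    apply hκi
    rw [hκ, hZ, sg_im, map_smul, hZ]
    exact map_smul (IsScalarTower.toAlgHom ℂ ND.Ent Mer) q zz
  have hGs : ∀ h ∈ G.map κ.toLinearMap, sg q hq0 h ∈ G.map κ.toLinearMap := by
    rintro _ ⟨c, hc, rfl⟩
    refine ⟨σ c, ?_, hκ c⟩
    intro Q hQ D hD
    have h1 := reg_tenD hM hM σ (show RegTensor M (tenD Z N c) from hc) Q hQ D hD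
    rw [tenD_apply, hσZ] at h1
    have h2 : ∏ a, D a (q • Z) = algebraMap ℂ F (q ^ N) * ∏ a, D a Z := by
      have h3 : ∀ a, D a (q • Z) = algebraMap ℂ F q * D a Z := fun a => by
        rw [Derivation.map_smul, Algebra.smul_def]
      simp only [h3, Finset.prod_mul_distrib, Finset.prod_const, Finset.card_univ, Fintype.card_fin,
        map_pow]
    rw [h2] at h1
    have h4 := Q.reg_mul (Q.reg_const (q ^ N)⁻¹) h1
    rw [tenD_apply]
    have h5 : algebraMap ℂ F (q ^ N)⁻¹ * (σ c * (algebraMap ℂ F (q ^ N) * ∏ a, D a Z)) =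
        σ c * ∏ a, D a Z := by
      have h6 : algebraMap ℂ F (q ^ N)⁻¹ * algebraMap ℂ F (q ^ N) = 1 := by
        rw [← map_mul, inv_mul_cancel₀ (pow_ne_zero _ hq0), map_one]
      linear_combination (σ c * ∏ a, D a Z) * h6
    rw [h5] at h4
    exact h4
  obtain ⟨m, hm⟩ := laurent hq0 hqr (G.map κ.toLinearMap) hGs
  obtain ⟨P, hP⟩ := hm (κ a) ⟨a, hr, rfl⟩
  have haP : Z ^ m * a = Polynomial.aeval Z P := by
    apply hκi
    rw [map_mul, map_pow, hZ, ← Polynomial.aeval_algHom_apply, hZ, ← im_pol]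
    exact hP
  have hZ0 : Z ≠ 0 := by
    rintro rfl
    exact hZt isAlgebraic_zero
  have hP0 : P ≠ 0 := by
    rintro rfl
    rw [map_zero] at haP
    exact mul_ne_zero (pow_ne_zero _ hZ0) ha haP
  -- a zero of `Z`
  obtain ⟨Q, hQ, hQZ⟩ := exists_zero hM hZt
  obtain ⟨D, hD, hD0, hDo⟩ := exists_reg_der hM hQ hQZ.ne'
  obtain ⟨hP1, hP2⟩ := ord_poly_pos hQZ hP0
  have h1 := hr Q hQ (fun _ => D) fun _ => hD
  rw [tenD_apply, Finset.prod_const, Finset.card_univ, Fintype.card_fin] at h1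
  have h2 := h1.resolve_left (mul_ne_zero ha (pow_ne_zero _ hD0))
  rw [Q.ord_mul ha (pow_ne_zero _ hD0), Q.ord_pow, hDo] at h2
  have h3 := congrArg Q.ord haP
  rw [Q.ord_mul (pow_ne_zero _ hZ0) ha, Q.ord_pow, hP2] at h3
  -- a pole of `Z`
  have hZi : Transcendental ℂ Z⁻¹ := by
    intro h
    apply hZt
    have := h.inv
    rwa [inv_inv] at this
  obtain ⟨Q', hQ', hQZ'⟩ := exists_zero hM hZi
  rw [Q'.ord_inv] at hQZ'
  obtain ⟨D', hD', hD0', hDo'⟩ := exists_reg_der hM hQ' (Z := Z) (by omega)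
  obtain ⟨hP1', hP2'⟩ := ord_poly_neg (Q := Q') (Z := Z) (by omega) hP0
  have h1' := hr Q' hQ' (fun _ => D') fun _ => hD'
  rw [tenD_apply, Finset.prod_const, Finset.card_univ, Fintype.card_fin] at h1'
  have h2' := h1'.resolve_left (mul_ne_zero ha (pow_ne_zero _ hD0'))
  rw [Q'.ord_mul ha (pow_ne_zero _ hD0'), Q'.ord_pow, hDo'] at h2'
  have h3' := congrArg Q'.ord haP
  rw [Q'.ord_mul (pow_ne_zero _ hZ0) ha, Q'.ord_pow, hP2'] at h3'
  -- comparison
  have hle : (P.natTrailingDegree : ℤ) ≤ P.natDegree := by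
    exact_mod_cast P.natTrailingDegree_le_natDegree
  have hN' : (0 : ℤ) < N := by exact_mod_cast hN
  obtain ⟨e, he⟩ : ∃ e : ℤ, e = Q.ord Z := ⟨_, rfl⟩
  obtain ⟨e', he'⟩ : ∃ e' : ℤ, e' = -Q'.ord Z := ⟨_, rfl⟩
  obtain ⟨j, hj⟩ : ∃ j : ℤ, j = P.natTrailingDegree := ⟨_, rfl⟩
  obtain ⟨d, hd⟩ : ∃ d : ℤ, d = P.natDegree := ⟨_, rfl⟩
  have hQ'Z : Q'.ord Z = -e' := by rw [he']; ring
  rw [← he] at h2 h3 hQZ
  rw [hQ'Z] at h2' h3' hQZ'
  rw [← hj] at h3 hle
  rw [← hd] at h3' hle
  have k1 : 0 ≤ (j - m) * e + N * (e - 1) := by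
    have : Q.ord a = (j - m) * e := by linear_combination h3
    rw [this] at h2
    exact h2
  have k2 : 0 ≤ (d - m) * (-e') + N * (-e' - 1) := by
    have : Q'.ord a = (d - m) * (-e') := by linear_combination h3'
    rw [this] at h2'
    exact h2'
  have k3 : 0 < e' := by omega
  have k4 : -N < j - m := by
    by_contra hcon
    push Not at hcon
    nlinarith
  have k5 : d - m < -N := by
    by_contra hcon
    push Not at hcon
    nlinarith
  omega

/-- no regular tensor `h (dt) ^ N`, if `t` is a rational function of `z` -/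
theorem no_rat [Algebra.EssFiniteType ℂ K] [Algebra.EssFiniteType ℂ F] {q : ℂ} (hq0 : q ≠ 0)
    (hqr : ∀ n : ℕ, 0 < n → q ^ n ≠ 1) (σ : F →ₐ[ℂ] F) (κ : F →ₐ[ℂ] Mer)
    (hκ : ∀ r, κ (σ r) = sg q hq0 (κ r)) (hw : Algebra.trdeg ℂ K = w) {Z : F}
    (hZ : κ Z = im zz) (hZt : Transcendental ℂ Z) (τ : K →ₐ[ℂ] F) (hN : 0 < N) {t h : K}
    (ht : Transcendental ℂ t) (htr : IsRatl (κ (τ t))) (h0 : h ≠ 0)
    (hr : RegTensor w (tenD t N h)) : False := by
  obtain ⟨M, hM⟩ := Cardinal.lt_aleph0.1 (trdeg_lt_aleph0 ℂ F)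
  have hκi : Function.Injective κ := κ.toRingHom.injective
  obtain ⟨A, B, hB, hAB⟩ := htr
  have hAB' : Polynomial.aeval Z B * τ t = Polynomial.aeval Z A := by
    apply hκi
    rw [map_mul, ← Polynomial.aeval_algHom_apply, ← Polynomial.aeval_algHom_apply, hZ, ← im_pol,
      ← im_pol]
    exact hAB
  have hB0 : Polynomial.aeval Z B ≠ 0 := by
    intro h1
    exact hZt ⟨B, hB, h1⟩
  obtain ⟨T, hT⟩ : ∃ T : F, T = (Polynomial.aeval Z (Polynomial.derivative A) -
    τ t * Polynomial.aeval Z (Polynomial.derivative B)) / Polynomial.aeval Z B := ⟨_, rfl⟩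
  have hD : ∀ D : Derivation ℂ F F, D (τ t) = T * D Z := by
    intro D
    have hder : ∀ P : Polynomial ℂ, D (Polynomial.aeval Z P) =
        Polynomial.aeval Z (Polynomial.derivative P) * D Z := fun P => by
      rw [Polynomial.aeval_def, Polynomial.aeval_def]
      have h1 := D.map_aeval P Z
      rw [Polynomial.aeval_def, Polynomial.aeval_def, smul_eq_mul] at h1
      exact h1
    have h1 := congrArg D hAB'
    rw [D.leibniz, hder, hder, smul_eq_mul, smul_eq_mul] at h1
    rw [hT]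
    field_simp
    linear_combination h1
  have hT0 : T ≠ 0 := by
    rintro rfl
    have h1 : Transcendental ℂ (τ t) := by
      rw [Transcendental, isAlgebraic_algHom_iff τ τ.toRingHom.injective]
      exact ht
    obtain ⟨D, h2⟩ := exists_der_one h1
    rw [hD, zero_mul] at h2
    exact zero_ne_one h2
  have h1 := reg_tenD hw hM τ hr
  have h2 : tenD (τ t) N (τ h) = tenD Z N (τ h * T ^ N) := by
    ext D
    rw [tenD_apply, tenD_apply]
    simp only [hD, Finset.prod_mul_distrib, Finset.prod_const, Finset.card_univ, Fintype.card_fin]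
    ring
  rw [h2] at h1
  refine no_line hq0 hqr σ κ hκ hM hZ hZt hN (mul_ne_zero ?_ (pow_ne_zero _ hT0)) h1
  exact fun h3 => h0 (τ.toRingHom.injective (h3.trans (map_zero τ).symm))

end

end Pool.Agent.Run7.h718.NE
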