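import Pool.Agent.Run7.h718.NE.Eq
import Pool.Agent.Run7.h718.NE.Plu
import Pool.Agent.Run7.h718.NE.Spec
import Pool.Agent.Run7.h718.ND.Thm

/-!
Entire curves which satisfy a rational `q`-difference equation of any order: the theorem.
-/

set_option autoImplicit false
set_option linter.overlappingInstances false
set_option linter.unusedSectionVars false
set_option maxHeartbeats 1000000
set_option synthInstance.maxHeartbeats 400000

open FF MvPolynomial Pool.Agent.W602.GT Pool.Agent.TH143.GT Pool.Agent.W603.BPR Pool.Agent.W603.BP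
open Pool.Agent.Run7.h718.ND (Mer im im_inj im_ne im_mul fe sg IsRatl RationalAlong eval_form evl
  pol alg_rat covered_of_rat le_one_of_ratl exists_emb dim_pos isRatl_iff)

namespace Pool.Agent.Run7.h718.NE

variable {n w : ℕ} {K : Type} [Field K] [Algebra ℂ K] {y : Fin (n + 1) → K}
  {f : ℂ → Fin (n + 1) → ℂ} {p : Ideal (MvPolynomial (Fin (n + 1)) ℂ)}

/-- the embedding of the function field in a finitely generated difference field -/
theorem exists_diff (hgp : GenPt f Set.univ K w y) (hfd : ∀ j, Differentiable ℂ (fun z => f z j))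
    (hfne : ∀ z, f z ≠ 0) {q : ℂ} (hq0 : q ≠ 0) {m : ℕ} (hDE : DiffEq q m f)
    {ι : K →ₐ[ℂ] Mer} (hι : ∀ (d : ℕ) (g1 g0 : MvPolynomial (Fin (n + 1)) ℂ),
      g1.IsHomogeneous d → g0.IsHomogeneous d → W602.GT.val y g0 ≠ 0 →
      ι (W602.GT.val y g1 / W602.GT.val y g0) =
        im (aeval (fe hfd) g1) / im (aeval (fe hfd) g0) ∧ aeval (fe hfd) g0 ≠ 0) :
    ∃ (F : Type) (_ : Field F) (_ : Algebra ℂ F) (_ : Algebra.EssFiniteType ℂ F)
      (σ : F →ₐ[ℂ] F) (κ : F →ₐ[ℂ] Mer) (τ : K →ₐ[ℂ] F) (Z : F), (∀ r, κ (σ r) = sg q hq0 (κ r)) ∧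
      (∀ r, κ (τ r) = ι r) ∧ κ Z = im ND.zz := by
  have hne : ∃ k0, fe hfd k0 ≠ 0 := by
    by_contra hno
    push Not at hno
    apply hfne 0
    funext j
    have h1 := congrArg (evl 0) (hno j)
    rw [map_zero] at h1
    exact h1
  obtain ⟨F, hess, hF, hzF, hmem⟩ := exists_field hfd hq0 hne hDE
  have hιF : ∀ r, ι r ∈ F := by
    have hle : (⊤ : IntermediateField ℂ K) ≤ F.comap ι := by
      rw [← hgp.gen]
      unfold coords
      rw [IntermediateField.adjoin_le_iff]
      rintro _ ⟨i, j, hj, rfl⟩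
      change ι (y i / y j) ∈ F
      have h1 := (hι 1 (X i) (X j) (isHomogeneous_X _ _) (isHomogeneous_X _ _)
        (by rwa [ND.val_X])).1
      rw [ND.val_X, ND.val_X, ND.aeval_fe_X, ND.aeval_fe_X] at h1
      rw [h1]
      exact hmem i j
    exact fun r => hle (IntermediateField.mem_top (x := r))
  let σ : F →ₐ[ℂ] F :=
    { toFun := fun r => ⟨sg q hq0 r, hF r r.2⟩
      map_one' := Subtype.ext (map_one (sg q hq0))
      map_mul' := fun a b => Subtype.ext (map_mul (sg q hq0) (a : Mer) (b : Mer))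
      map_zero' := Subtype.ext (map_zero (sg q hq0))
      map_add' := fun a b => Subtype.ext (map_add (sg q hq0) (a : Mer) (b : Mer))
      commutes' := fun c => Subtype.ext ((sg q hq0).commutes c) }
  let τ : K →ₐ[ℂ] F :=
    { toFun := fun r => ⟨ι r, hιF r⟩
      map_one' := Subtype.ext (map_one ι)
      map_mul' := fun a b => Subtype.ext (map_mul ι a b)
      map_zero' := Subtype.ext (map_zero ι)
      map_add' := fun a b => Subtype.ext (map_add ι a b)
      commutes' := fun c => Subtype.ext (ι.commutes c) }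
  exact ⟨F, inferInstance, inferInstance, hess, σ, F.val, τ, ⟨im ND.zz, hzF⟩, fun r => rfl,
    fun r => rfl, rfl⟩

/-- algebraic functions of rational functions of `z` are rational functions of `z` -/
theorem ratl_of_alg (ι : K →ₐ[ℂ] Mer) {S : Set K} (hS : ∀ s ∈ S, IsRatl (ι s)) {s : K}
    (h : IsAlgebraic (Algebra.adjoin ℂ S) s) : IsRatl (ι s) := by
  refine alg_rat ?_
  obtain ⟨P, hP0, hP⟩ := h
  let θ : Algebra.adjoin ℂ S →+* IntermediateField.adjoin ℂ {im ND.zz} :=
    { toFun := fun a => ⟨ι a, by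
        have h2 : (a : K) ∈ ((IntermediateField.adjoin ℂ {im ND.zz}).comap ι).toSubalgebra := by
          refine Algebra.adjoin_le ?_ a.2
          intro r hr
          exact isRatl_iff.1 (hS r hr)
        exact h2⟩
      map_one' := Subtype.ext (map_one ι)
      map_mul' := fun a b => Subtype.ext (map_mul ι (a : K) (b : K))
      map_zero' := Subtype.ext (map_zero ι)
      map_add' := fun a b => Subtype.ext (map_add ι (a : K) (b : K)) }
  have hθinj : Function.Injective θ := by
    intro a b hab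
    apply Subtype.ext
    exact ι.toRingHom.injective (congrArg Subtype.val hab)
  refine ⟨P.map θ, (Polynomial.map_ne_zero_iff hθinj).2 hP0, ?_⟩
  have h2 := congrArg ι hP
  rw [map_zero, Polynomial.aeval_def] at h2
  have h3 := Polynomial.hom_eval₂ P (algebraMap (Algebra.adjoin ℂ S) K) (ι : K →+* Mer) s
  rw [Polynomial.aeval_def, Polynomial.eval₂_map]
  exact h3.symm.trans h2

/-- **The theorem.** -/
theorem curve_main (hy : FunField p 1 K w y) (hf : EntireCurve p 1 f)
    (hd : ZDense p f Set.univ) {q : ℂ} (hq0 : q ≠ 0) (hqr : ∀ k : ℕ, 0 < k → q ^ k ≠ 1) {m : ℕ}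
    (hDE : DiffEq q m f) :
    (∀ (M : ℕ) (θ : MultilinearMap K (fun _ : Fin M => Derivation ℂ K K) K) (r : K),
      θ ≠ 0 → RegTensor w θ → RegTensor w (r • θ) → RationalAlong y f r) ∧
    (∀ (M : ℕ) (θ : MultilinearMap K (fun _ : Fin M => Derivation ℂ K K) K) (r : Fin 2 → K),
      θ ≠ 0 → RegTensor w θ → (∀ i, RegTensor w (r i • θ)) → ¬ AlgebraicIndependent ℂ r) ∧
    (∀ (L : Type) [Field L] [Algebra ℂ L] [Algebra.EssFiniteType ℂ L] (_ : L →ₐ[ℂ] K) (u : ℕ),
      Algebra.trdeg ℂ L = u → ¬ KodGe ℂ L u (fun _ => False) 2) ∧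
    Special K w ∧ ¬ GeneralType ℂ K w := by
  classical
  obtain ⟨hfd, hfne, -, -⟩ := ent_data hf
  have hgp : GenPt f Set.univ K w y := hy.genPt (fun z _ => (hf.2.1 z).2.1) hd
  have hw : Algebra.trdeg ℂ K = w := hgp.dim
  have hw0 : 0 < w := dim_pos hgp hfd hf.2.2 hfne
  have hess : Algebra.EssFiniteType ℂ K := ND.ess_of_coords hgp.gen
  obtain ⟨ι, hι⟩ := exists_emb hgp hfd
  obtain ⟨F, iF1, iF2, iF3, σ, κ, τ, Z, hκ, hκτ, hZ⟩ := exists_diff hgp hfd hfne hq0 hDE hι
  have hten : ∀ (M : ℕ) (θ : MultilinearMap K (fun _ : Fin M => Derivation ℂ K K) K) (r : K),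
      θ ≠ 0 → RegTensor w θ → RegTensor w (r • θ) → IsRatl (ι r) := by
    intro M θ r h0 hθ hr
    rw [← hκτ]
    exact main_abs hw hq0 hqr σ κ hκ τ hθ h0 hr
  -- pluricanonical forms of dominated varieties
  have hplu : ∀ (L : Type) [Field L] [Algebra ℂ L] [Algebra.EssFiniteType ℂ L] (φ : L →ₐ[ℂ] K)
      (u : ℕ), Algebra.trdeg ℂ L = u → ∀ (N : ℕ) (ω1 ω2 : (Fin u → Derivation ℂ L L) → L),
      IsPluri N ω1 → IsPluri N ω2 → (∀ P : Place ℂ L, Divisorial u P → RegAt P ω1) →
      (∀ P : Place ℂ L, Divisorial u P → RegAt P ω2) → ∀ D : Fin u → Derivation ℂ L L,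
      ω1 D ≠ 0 → IsRatl (ι (φ (ω2 D / ω1 D))) := by
    intro L _ _ _ φ u hu N ω1 ω2 h1 h2 hr1 hr2 D hD
    obtain ⟨x, E, hx, hE⟩ := Pool.Agent.Y172.exists_crd hu (k := ℂ) (K := L)
    have e1 : ω1 D = (Matrix.of fun i j => D i (x j)).det ^ N * ω1 E :=
      congrFun (ND.eq_frm hx hE h1) D
    have e2 : ω2 D = (Matrix.of fun i j => D i (x j)).det ^ N * ω2 E :=
      congrFun (ND.eq_frm hx hE h2) D
    have h3 : (Matrix.of fun i j => D i (x j)).det ^ N ≠ 0 := by
      intro h0
      rw [h0, zero_mul] at e1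
      exact hD e1
    have h4 : ω1 E ≠ 0 := fun h0 => hD (by rw [e1, h0, mul_zero])
    have h5 : ω2 D / ω1 D = ω2 E / ω1 E := by rw [e1, e2, mul_div_mul_left _ _ h3]
    rw [h5]
    have h6 := main_abs hu hq0 hqr σ κ hκ (τ.comp φ) (θ := tenF x N (ω1 E))
      (tenF_reg hu hx hE h1 hr1) (tenF_ne hE N h4) (r := ω2 E / ω1 E) (by
        rw [tenF_smul, div_mul_cancel₀ _ h4]
        exact tenF_reg hu hx hE h2 hr2)
    rw [AlgHom.comp_apply, hκτ] at h6
    exact h6
  -- special
  have hspec : Special K w := by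
    intro u N t h hu hN ht halg hreg h00 hind
    obtain ⟨κ', s, hs⟩ := basis_ext ht
    choose E hE using fun i : Fin u => exists_der _ hs
      (Sum.elim (fun j => if i = j then (1 : K) else 0) fun _ => 0)
    have hE' : ∀ i j, E i (t j) = if i = j then 1 else 0 := fun i j => hE i (Sum.inl j)
    have hregT : ∀ j, RegTensor w (tenF t N (h j)) := fun j P hP D hD =>
      hreg j P hP (fun a i => D (finProdFinEquiv (a, i))) fun a i => hD _
    have hrat : ∀ i : Fin u, IsRatl (ι (h i.succ / h 0)) := fun i =>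
      hten _ (tenF t N (h 0)) _ (tenF_ne hE' N h00) (hregT 0) (by
        rw [tenF_smul, div_mul_cancel₀ _ h00]
        exact hregT _)
    have hu1 : u ≤ 1 := le_one_of_ratl ι hind hrat
    obtain rfl : u = 1 := by omega
    have hr : Transcendental ℂ (h (Fin.succ 0) / h 0) := hind.transcendental 0
    have ht0 : Transcendental ℂ (t 0) := ht.transcendental 0
    have hran : Set.range t = {t 0} := by
      ext s
      constructor
      · rintro ⟨i, rfl⟩
        rw [Subsingleton.elim i 0]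
        rfl
      · rintro rfl
        exact ⟨0, rfl⟩
    have h1 : IsAlgebraic (Algebra.adjoin ℂ {t 0}) (h (Fin.succ 0) / h 0) := by
      apply ND.isAlg_adjoin
      rw [← hran, div_eq_mul_inv]
      exact (halg _).mul (halg 0).inv
    have h2 := exch hr h1
    have h3 : IsRatl (ι (t 0)) := ratl_of_alg ι (S := {h (Fin.succ 0) / h 0}) (by
      rintro s rfl
      exact hrat 0) h2
    have hZt : Transcendental ℂ Z := by
      intro hcon
      apply ND.zz_transc
      rw [← hZ]
      exact hcon.algHom κ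
    refine no_rat hq0 hqr σ κ hκ hw hZ hZt τ hN ht0 (by rw [hκτ]; exact h3) h00 (h := h 0)
      fun P hP D hD => ?_
    have h4 := hreg 0 P hP (fun a _ => D a) fun a _ => hD a
    rw [tenD_apply]
    have h5 : ∀ a, (Matrix.of fun (_ : Fin 1) (j : Fin 1) => D a (t j)).det = D a (t 0) := fun a => by
      rw [Matrix.det_fin_one]
      rfl
    simp only [h5] at h4
    exact h4
  refine ⟨?_, ?_, ?_, hspec, ?_⟩
  · intro M θ r h0 hθ hr d g1 g0 hg1 hg0 hn hq
    obtain ⟨A, B, hB, hAB⟩ := hten M θ r h0 hθ hr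
    obtain ⟨h5, h6⟩ := hι d g1 g0 hg1 hg0 hn
    rw [hq, h5] at hAB
    refine ⟨A, B, hB, fun z => ?_⟩
    have h7 : pol B * aeval (fe hfd) g1 = pol A * aeval (fe hfd) g0 := by
      apply im_inj
      rw [im_mul, im_mul, ← hAB]
      have h8 := im_ne h6
      field_simp
    have h8 := congrArg (evl z) h7
    rw [map_mul, map_mul, eval_form, eval_form] at h8
    exact h8
  · intro M θ r h0 hθ hr hind
    have h2 : 2 ≤ 1 := le_one_of_ratl ι hind fun i => hten M θ (r i) h0 hθ (hr i)
    omega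
  · intro L _ _ _ φ u hu
    rintro ⟨N, hN, ω, hω, D, hD, hind⟩
    have hreg : ∀ j, ∀ P : Place ℂ L, Divisorial u P → RegAt P (ω j) := fun j P hP =>
      (hω j).2.2 P hP id
    have h2 : 2 ≤ 1 := le_one_of_ratl (ι.comp φ) hind fun i =>
      hplu L φ u hu N (ω 0) (ω i.succ) (hω 0).1 (hω i.succ).1 (hreg 0) (hreg _) D hD
    omega
  · rintro ⟨-, N, hN, ω, hω, hreg, D, hD, hind⟩
    obtain ⟨x, E, hx, hE⟩ := Pool.Agent.Y172.exists_crd hw (k := ℂ) (K := K)
    have e1 : ∀ j, ω j D = (Matrix.of fun i j => D i (x j)).det ^ N * ω j E := fun j =>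
      congrFun (ND.eq_frm hx hE (hω j)) D
    have h3 : (Matrix.of fun i j => D i (x j)).det ^ N ≠ 0 := by
      intro h0
      rw [e1, h0, zero_mul] at hD
      exact hD rfl
    have h4 : ω 0 E ≠ 0 := fun h0 => hD (by rw [e1, h0, mul_zero])
    refine hspec w N x (fun j => ω j E) hw0 hN hx.1 (fun j => ?_) (fun j P hP D' hD' => ?_) h4 ?_
    · have := hx.isAlgebraic_field
      exact Algebra.IsAlgebraic.isAlgebraic _
    · have h5 := tenF_reg hw hx hE (hω j) (fun P hP => hreg P hP j) P hP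
        (fun i => D' (finProdFinEquiv.symm i).1 (finProdFinEquiv.symm i).2) fun i => hD' _ _
      rw [tenF_apply] at h5
      simp only [Equiv.symm_apply_apply] at h5
      exact h5
    · have h5 : (fun i : Fin w => ω i.succ D / ω 0 D) = fun i : Fin w => ω i.succ E / ω 0 E := by
        funext i
        rw [e1, e1, mul_div_mul_left _ _ h3]
      rw [h5] at hind
      exact hind

end Pool.Agent.Run7.h718.NE
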