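import Pool.Agent.Run7.h718.NE.Jac
import Pool.Agent.Run7.h718.ND.Nrm
import Pool.Agent.Run7.h612.AB.Main3

/-!
The components of the regular tensors are in a finite-dimensional space.
-/

set_option autoImplicit false
set_option linter.overlappingInstances false
set_option linter.unusedSectionVars false
set_option maxHeartbeats 1000000
set_option synthInstance.maxHeartbeats 400000

open FF Pool.Agent.W602.GT Pool.Agent.W603.LV Pool.Agent.W619.PQ Pool.Agent.Y172

namespace Pool.Agent.Run7.h718.NE

/-- `x j` has order at least `- s P` -/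
noncomputable def pole {K : Type} [Field K] [Algebra ℂ K] {n : ℕ} (x : Fin n → K)
    (P : Place ℂ K) : ℕ := Finset.univ.sup fun j => (-(P.ord (x j))).toNat

theorem pole_ge {K : Type} [Field K] [Algebra ℂ K] {n : ℕ} (x : Fin n → K) (P : Place ℂ K)
    (j : Fin n) : -(pole x P : ℤ) ≤ P.ord (x j) := by
  have h1 : (-(P.ord (x j))).toNat ≤ pole x P :=
    Finset.le_sup (f := fun j => (-(P.ord (x j))).toNat) (Finset.mem_univ j)
  have h2 := Int.self_le_toNat (-(P.ord (x j)))
  omega

theorem pole_ne {K : Type} [Field K] [Algebra ℂ K] {n : ℕ} {x : Fin n → K} {P : Place ℂ K}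
    (h : pole x P ≠ 0) : ∃ j, P.ord (x j) ≠ 0 := by
  by_contra hno
  push Not at hno
  apply h
  unfold pole
  rw [← Nat.le_zero]
  refine Finset.sup_le fun j _ => ?_
  rw [hno j]
  simp

theorem tensor_finite_base {K : Type} [Field K] [Algebra ℂ K] {n : ℕ} {x : Fin n → K}
    (hx : IsTranscendenceBasis ℂ x) (htop : IntermediateField.adjoin ℂ (Set.range x) = ⊤)
    (L : Type) [Field L] [Algebra ℂ L] [Algebra K L] [IsScalarTower ℂ K L]
    [FiniteDimensional K L] (M : ℕ) : ∃ H : Submodule ℂ L, FiniteDimensional ℂ H ∧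
      ∀ F : Fin n → Derivation ℂ L L,
        (∀ i j, F i (algebraMap K L (x j)) = if i = j then 1 else 0) →
        ∀ v : MultilinearMap L (fun _ : Fin M => Derivation ℂ L L) L, RegTensor n v →
          ∀ I, comp F v I ∈ H := by
  classical
  have hn : Algebra.trdeg ℂ K = n := by
    rw [← hx.cardinalMk_eq_trdeg, Cardinal.mk_fin]
  have hy := ND.normal_proj hx htop
  obtain ⟨y, hydef⟩ : ∃ y : Fin (n + 1) → K, y = Fin.cons 1 x := ⟨_, rfl⟩
  rw [← hydef] at hy
  have hess := hy.ess
  have hessL : Algebra.EssFiniteType ℂ L := by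
    have h1 : Algebra.EssFiniteType K L := inferInstance
    exact Algebra.EssFiniteType.comp ℂ K L
  have hnL : Algebra.trdeg ℂ L = n := trdeg_up (K := K) hn
  choose E hE using fun i : Fin n => exists_der x hx fun j => if i = j then 1 else 0
  obtain ⟨c, hcfin, hc⟩ := Pool.Agent.R887.exists_ordc hy hn hx hE
  have hram := ND.ram_finite hy (L := L)
  let bad : Place ℂ K → Prop := fun P => c P ≠ 0 ∨ (∃ (Q : Place ℂ L) (e : ℕ),
    Pool.Agent.R887.LiesOver (IsScalarTower.toAlgHom ℂ K L) Q P e ∧ e ≠ 1) ∨ pole x P ≠ 0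
  let b : Place ℂ K → ℕ := fun P => M * (n * (pole x P + 1) + 1 + (c P).natAbs) +
    n * (pole x P + 1)
  let Δ : Place ℂ K → ℚ := fun P => if bad P then (b P : ℚ) + 1 else 0
  have hΔ : Effective y Δ := by
    constructor
    · intro P _
      simp only [Δ]
      split_ifs
      · positivity
      · exact le_rfl
    · have h1 : (⋃ j, {P | IsPrimeDivisor y P ∧ P.ord (x j) ≠ 0}).Finite :=
        Set.finite_iUnion fun j => finite_ord hy (hx.1.ne_zero j)
      refine ((hcfin.union hram).union h1).subset ?_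
      rintro P ⟨hP, h0⟩
      by_cases hb : bad P
      · rcases hb with hb | hb | hb
        · exact Or.inl (Or.inl ⟨hP, hb⟩)
        · exact Or.inl (Or.inr ⟨hP, hb⟩)
        · obtain ⟨j, hj⟩ := pole_ne hb
          exact Or.inr (Set.mem_iUnion.2 ⟨j, hP, hj⟩)
      · exact absurd (if_neg hb) h0
  have hfin := (Run7.h612.AB.main_finite hy hn hΔ L (m := 1) le_rfl).1
  have hXb : IsTranscendenceBasis ℂ (fun j => algebraMap K L (x j)) :=
    hx.algebraMap_comp (A := L)
  choose F0 hF0 using fun i : Fin n => exists_der _ hXb fun j => if i = j then (1 : L) else 0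
  let T : ((Fin n → Derivation ℂ L L) → L) →ₗ[ℂ] L :=
    { toFun := fun ω => ω F0
      map_add' := fun _ _ => rfl
      map_smul' := fun _ _ => rfl }
  refine ⟨Submodule.map T (Submodule.span ℂ
      {ω : (Fin n → Derivation ℂ L L) → L | Run7.h612.AB.IsCoverSection y n Δ 1 ω}), ?_, ?_⟩
  · infer_instance
  intro F hF v hv I
  refine ⟨ND.frm (fun j => algebraMap K L (x j)) 1 (comp F v I), Submodule.subset_span
    ⟨ND.frm_pluri _ _ _, ?_⟩, ND.frm_self hF0 1 _⟩
  intro Q P e hP hov D hD
  have hPd : Divisorial n P := hP.divisorial hy hn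
  have hov' : FF.Over Q P e := ⟨hov.1, hov.2⟩
  have hQd : Divisorial n Q := divisorial_up hov' hPd
  obtain ⟨xP, EP, i0, hl⟩ := exists_loc hn hPd
  obtain ⟨y', E', j0, hl'⟩ := exists_loc hnL hQd
  obtain ⟨hJ0, hJ⟩ := jac_le hn hov' hQd hl hl'
  have he1 : (1 : ℤ) ≤ e := by exact_mod_cast hov.1
  -- the order of the form at `P`
  obtain ⟨A, hA⟩ : ∃ A : Matrix (Fin n) (Fin n) K, A = Matrix.of fun i j => EP i (x j) := ⟨_, rfl⟩
  have hA0 : A.det ≠ 0 := by
    intro h0
    have h1 : (Matrix.of fun i j => E i (xP j)) * A = 1 := by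
      ext k j
      rw [Matrix.mul_apply, Matrix.one_apply, ← hE k j]
      have h4 := congrArg (fun D : Derivation ℂ K K => D (x j))
        (Pool.Agent.W73.PG.PULL.expand xP hl.bas EP hl.dual (E k))
      rw [hA, ← h4]
      exact (ND.sum_smul_app _ _ _).symm
    have h2 := congrArg Matrix.det h1
    rw [Matrix.det_mul, h0, mul_zero, Matrix.det_one] at h2
    exact zero_ne_one h2
  have hAc : P.ord A.det ≤ c P := by
    have h1 : OrdGe P (ND.frm x 1 1) ((P.ord A.det : ℤ) : ℚ) := by
      intro G hG
      have h2 : ND.frm x 1 1 G = (Matrix.of fun i j => G i (xP j)).det * A.det := by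
        unfold ND.frm
        rw [pow_one, mul_one, ← Matrix.det_mul]
        congr 1
        ext k j
        rw [Matrix.mul_apply, Matrix.of_apply]
        have h4 := congrArg (fun D : Derivation ℂ K K => D (x j))
          (Pool.Agent.W73.PG.PULL.expand xP hl.bas EP hl.dual (G k))
        rw [hA]
        rw [← h4]
        exact ND.sum_smul_app _ _ _
      have h3 : Ge P 0 (Matrix.of fun i j => G i (xP j)).det :=
        ge_det P _ fun i j => hG i _ (hl.reg j)
      have h4 : Ge P (P.ord A.det) A.det := Or.inr le_rfl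
      have h5 := h3.mul h4
      rw [zero_add, ← h2] at h5
      rcases h5 with h5 | h5
      · exact Or.inl h5
      · right
        exact_mod_cast h5
    have h2 := (hc P hP 1 _ (ND.frm_pluri x 1 1) _).1 h1
    rw [ND.frm_self hE] at h2
    have h3 := h2.resolve_left one_ne_zero
    rw [P.ord_one, Nat.cast_one, one_mul, Int.cast_zero, add_zero] at h3
    exact_mod_cast h3
  -- the Jacobian determinant
  obtain ⟨G, hG⟩ : ∃ G : Matrix (Fin n) (Fin n) L,
    G = Matrix.of fun b j => E' b (algebraMap K L (x j)) := ⟨_, rfl⟩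
  have hGdet : G.det = (Matrix.of fun i j => E' i (algebraMap K L (xP j))).det *
      algebraMap K L A.det := by
    rw [RingHom.map_det, ← Matrix.det_mul]
    congr 1
    ext k j
    rw [hG, Matrix.mul_apply, Matrix.of_apply,
      Pool.Agent.W73.PG.PULL.chain xP hl.bas EP hl.dual (E' k) (x j)]
    refine Finset.sum_congr rfl fun i _ => ?_
    rw [RingHom.mapMatrix_apply, Matrix.map_apply, hA]
    rfl
  have hGz : Q.ord G.det ≤ (e - 1) + e * c P := by
    have h1 : algebraMap K L A.det ≠ 0 := by
      rw [Ne, map_eq_zero]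
      exact hA0
    rw [hGdet, Q.ord_mul hJ0 h1, hov'.2]
    have h2 : (e : ℤ) * P.ord A.det ≤ e * c P := mul_le_mul_of_nonneg_left hAc (by omega)
    omega
  have hval : ND.frm (fun j => algebraMap K L (x j)) 1 (comp F v I) D =
      (Matrix.of fun i j => D i (algebraMap K L (x j))).det * comp F v I := by
    unfold ND.frm
    rw [pow_one]
  by_cases hb : bad P
  · -- the bad places
    have hΔP : Δ P = b P + 1 := if_pos hb
    obtain ⟨s, hs⟩ : ∃ s : ℕ, s = pole x P := ⟨_, rfl⟩
    have hder : ∀ (D : Derivation ℂ L L), DerReg Q D → ∀ j,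
        Ge Q (-((e * s + 1 : ℕ) : ℤ)) (D (algebraMap K L (x j))) := by
      intro D hD j
      refine Ge.mono ?_ (ge_der_reg hD _)
      rw [hov'.2]
      have h1 := pole_ge x P j
      rw [← hs] at h1
      have h2 : (e : ℤ) * (-(s : ℤ)) ≤ e * P.ord (x j) := mul_le_mul_of_nonneg_left h1 (by omega)
      push_cast
      linarith
    have h1 := tensor_ord hl' hF (t := e * s + 1) (fun b j => hder _ (hl'.pres b) j) (hG ▸ hGz) hQd
      hv I
    have h2 := ge_det' (Q := Q) (Matrix.of fun i j => D i (algebraMap K L (x j)))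
      (c := -((e * s + 1 : ℕ) : ℤ)) fun i j => hder _ (hD i) j
    have h3 := h2.mul h1
    rw [← hval] at h3
    rcases h3 with h3 | h3
    · exact Or.inl h3
    · right
      have h4 : -((e : ℤ) * b P) ≤ (n : ℤ) * -((e * s + 1 : ℕ) : ℤ) +
          -((M : ℤ) * (n * ((e * s + 1 : ℕ) : ℤ) + ((e : ℤ) - 1 + e * c P))) := by
        have hb' : (b P : ℤ) = M * (n * (s + 1) + 1 + |c P|) + n * (s + 1) := by
          simp only [b, ← hs]
          push_cast
          rfl
        have h5 : ((e * s + 1 : ℕ) : ℤ) ≤ e * (s + 1) := by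
          push_cast
          linarith
        have h6 : (n : ℤ) * ((e * s + 1 : ℕ) : ℤ) ≤ n * (e * (s + 1)) :=
          mul_le_mul_of_nonneg_left h5 (by positivity)
        have h7 : (e : ℤ) - 1 + e * c P ≤ e * (1 + |c P|) := by
          have h8 : (e : ℤ) * c P ≤ e * |c P| := mul_le_mul_of_nonneg_left (le_abs_self _) (by omega)
          linarith
        have h8 : (M : ℤ) * (n * ((e * s + 1 : ℕ) : ℤ) + ((e : ℤ) - 1 + e * c P)) ≤
            M * (n * (e * (s + 1)) + e * (1 + |c P|)) :=
          mul_le_mul_of_nonneg_left (by linarith) (by positivity)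
        rw [hb']
        linarith
      have h5 := h4.trans h3
      have h6 : (-((e : ℚ) * b P)) ≤ Q.ord (ND.frm (fun j => algebraMap K L (x j)) 1
          (comp F v I) D) := by exact_mod_cast h5
      rw [hΔP]
      refine le_trans ?_ h6
      push_cast
      linarith
  · -- the good places
    have hΔP : Δ P = 0 := if_neg hb
    simp only [bad, not_or, not_not, not_exists, not_and] at hb
    obtain ⟨hc0, hr, hp0⟩ := hb
    have he : e = 1 := hr Q e hov
    have hxr : ∀ j, Q.Reg (algebraMap K L (x j)) := by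
      intro j
      have h1 := pole_ge x P j
      rw [hp0] at h1
      exact hov'.reg.2 (Or.inr (by simpa using h1))
    have h1 := tensor_ord hl' hF (t := 0) (z := 0) (fun b j => by
        rw [Nat.cast_zero, neg_zero]
        exact hl'.pres b _ (hxr j)) (by
        rw [← hG]
        rw [hc0, he] at hGz
        simpa using hGz) hQd hv I
    have h2 : Ge Q 0 (Matrix.of fun i j => D i (algebraMap K L (x j))).det :=
      ge_det Q _ fun i j => hD i _ (hxr j)
    have h3 := h2.mul h1
    rw [← hval] at h3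
    rcases h3 with h3 | h3
    · exact Or.inl h3
    · right
      rw [hΔP, he]
      have h4 : (0 : ℤ) ≤ Q.ord (ND.frm (fun j => algebraMap K L (x j)) 1 (comp F v I) D) := by
        simpa using h3
      have h5 : (0 : ℚ) ≤ Q.ord (ND.frm (fun j => algebraMap K L (x j)) 1 (comp F v I) D) := by
        exact_mod_cast h4
      simpa using h5

/-- **Finiteness of the regular tensors.** -/
theorem tensor_finite {L : Type} [Field L] [Algebra ℂ L] [Algebra.EssFiniteType ℂ L] {n : ℕ}
    (hn : Algebra.trdeg ℂ L = n) (M : ℕ) : ∃ (X : Fin n → L) (F : Fin n → Derivation ℂ L L),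
      IsTranscendenceBasis ℂ X ∧ (∀ i j, F i (X j) = if i = j then 1 else 0) ∧
      ∃ H : Submodule ℂ L, FiniteDimensional ℂ H ∧
        ∀ v : MultilinearMap L (fun _ : Fin M => Derivation ℂ L L) L, RegTensor n v →
          ∀ I, comp F v I ∈ H := by
  obtain ⟨z, F, hz, hF⟩ := exists_crd hn (k := ℂ) (K := L)
  have hfd : FiniteDimensional (IntermediateField.adjoin ℂ (Set.range z)) L := fd_basis hz
  let X : Fin n → IntermediateField.adjoin ℂ (Set.range z) := fun i =>
    ⟨z i, IntermediateField.subset_adjoin ℂ _ ⟨i, rfl⟩⟩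
  have hXtop : IntermediateField.adjoin ℂ (Set.range X) = ⊤ := by
    apply IntermediateField.lift_injective
    rw [IntermediateField.lift_adjoin, IntermediateField.lift_top]
    congr 1
    ext t
    constructor
    · rintro ⟨_, ⟨i, rfl⟩, rfl⟩
      exact ⟨i, rfl⟩
    · rintro ⟨i, rfl⟩
      exact ⟨X i, ⟨i, rfl⟩, rfl⟩
  have hX : IsTranscendenceBasis ℂ X := by
    have h1 : AlgebraicIndependent ℂ X :=
      AlgebraicIndependent.of_comp (IntermediateField.adjoin ℂ (Set.range z)).val hz.1
    exact h1.isTranscendenceBasis_iff_isAlgebraic.2 (ND.alg_top hXtop)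
  obtain ⟨H, hH, h1⟩ := tensor_finite_base hX hXtop L M
  exact ⟨z, F, hz, hF, H, hH, h1 F hF⟩

end Pool.Agent.Run7.h718.NE
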