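import Pool.Agent.Run7.h718.ND.Defs

/-!
Regular covariant tensors, and holomorphic curves in the projective space which satisfy a
`q`-difference equation of any order.
-/

set_option autoImplicit false

open FF Pool.Agent.W602.GT

namespace Pool.Agent.Run7.h718.NE

/-- The covariant tensor `θ` of rank `M`, a rational section of the `M`-th tensor power of the
cotangent bundle of the varieties with the function field `K` of dimension `w`, is regular: at all
prime divisors of all normal models its values on regular vector fields are regular. Equivalently,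
it is a section of the `M`-th tensor power of the cotangent bundle of the smooth projective
models. -/
def RegTensor {K : Type} [Field K] [Algebra ℂ K] (w : ℕ) {M : ℕ}
    (θ : MultilinearMap K (fun _ : Fin M => Derivation ℂ K K) K) : Prop :=
  ∀ P : Place ℂ K, Divisorial w P → ∀ D : Fin M → Derivation ℂ K K, (∀ i, DerReg P (D i)) →
    P.Reg (θ D)

/-- The tensor `h (dt_1 ∧ ... ∧ dt_u) ^ N` is a regular section of the `N`-th tensor power of the
bundle of the `u`-forms on the smooth projective models of `K`: at all prime divisors of all normal
models its values on regular vector fields are regular. -/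
def RegPower {K : Type} [Field K] [Algebra ℂ K] (w : ℕ) {u : ℕ} (N : ℕ) (t : Fin u → K) (h : K) :
    Prop :=
  ∀ P : Place ℂ K, Divisorial w P → ∀ D : Fin N → Fin u → Derivation ℂ K K,
    (∀ a i, DerReg P (D a i)) → P.Reg (h * ∏ a, (Matrix.of fun i j => D a i (t j)).det)

/-- The varieties `X` with the function field `K` of dimension `w` are special in the sense of
Campana: there is no fibration `X ⇢ B` of general type. The functions `t` are coordinates on the
base `B`, of dimension `u > 0`, and the function field of `B` consists of the functions which are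
algebraic over `ℂ(t)` (or is contained in this field, if the fibres are not connected). The
`N`-pluricanonical forms `h_j (dt_1 ∧ ... ∧ dt_u) ^ N` on `B` whose pull-backs to `X` are regular
sections of the `N`-th power of `Ω ^ u` are the sections of `N (K_B + Δ)` on a neat model, where `Δ`
is the orbifold divisor of the multiple fibres, and `B` is of general type if the quotients of such
forms contain `u` algebraically independent functions. -/
def Special (K : Type) [Field K] [Algebra ℂ K] (w : ℕ) : Prop :=
  ∀ (u N : ℕ) (t : Fin u → K) (h : Fin (u + 1) → K), 0 < u → 0 < N → AlgebraicIndependent ℂ t →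
    (∀ j, IsAlgebraic (IntermediateField.adjoin ℂ (Set.range t)) (h j)) →
    (∀ j, RegPower w N t (h j)) → h 0 ≠ 0 →
    ¬ AlgebraicIndependent ℂ (fun i : Fin u => h i.succ / h 0)

/-- The value at `v` of a polynomial whose coefficients are polynomials in `c`. -/
noncomputable def pev {ι : Type} {l : ℕ} (P : MvPolynomial ι (MvPolynomial (Fin l) ℂ))
    (c : Fin l → ℂ) (v : ι → ℂ) : ℂ :=
  MvPolynomial.eval₂ (MvPolynomial.eval c) v P

/-- The products `f_{s 0} (z) f_{s 1} (q z) ... f_{s (m - 1)} (q ^ (m - 1) z)` of the homogeneous
coordinates of the points `f z`, `f (q z)`, ..., `f (q ^ (m - 1) z)`. -/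
noncomputable def seg {n : ℕ} (q : ℂ) (m : ℕ) (f : ℂ → Fin (n + 1) → ℂ) (z : ℂ)
    (s : Fin m → Fin (n + 1)) : ℂ :=
  ∏ k : Fin m, f (q ^ (k : ℕ) * z) (s k)

/-- The curve with the homogeneous coordinates `f` satisfies a rational `q`-difference equation of
order `m`: `f (q ^ m z)` is proportional to the vector of the values of the `P i`, forms of the same
degree in the products of the coordinates of `f z`, ..., `f (q ^ (m - 1) z)` (thus multihomogeneous
forms in these points), not all vanishing along the curve, whose coefficients are polynomials in
entire functions `c 1, ..., c l` such that the `c i (q z)` are rational functions of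
`c 1 z, ..., c l z`. For example `l = 1` and `c z = z`, and then the coefficients are polynomials
in `z`. -/
def DiffEq {n : ℕ} (q : ℂ) (m : ℕ) (f : ℂ → Fin (n + 1) → ℂ) : Prop :=
  ∃ (l : ℕ) (c : ℂ → Fin l → ℂ) (R0 : MvPolynomial (Fin l) ℂ) (R : Fin l → MvPolynomial (Fin l) ℂ)
    (e : ℕ) (P : Fin (n + 1) → MvPolynomial (Fin m → Fin (n + 1)) (MvPolynomial (Fin l) ℂ)),
    (∀ i, Differentiable ℂ fun z => c z i) ∧ (∃ z, MvPolynomial.eval (c z) R0 ≠ 0) ∧
    (∀ z i, c (q * z) i * MvPolynomial.eval (c z) R0 = MvPolynomial.eval (c z) (R i)) ∧
    (∀ i, (P i).IsHomogeneous e) ∧ (∃ z i, pev (P i) (c z) (seg q m f z) ≠ 0) ∧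
    ∀ z i j, f (q ^ m * z) i * pev (P j) (c z) (seg q m f z) =
      f (q ^ m * z) j * pev (P i) (c z) (seg q m f z)

end Pool.Agent.Run7.h718.NE
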