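import Pool.Agent.Run7.h718.ND.Alg

/-!
Finite-dimensional spaces which are stable under a semilinear operator over a field of meromorphic
functions with the substitution of `q z`: the quotients of proportional elements are rational
functions.
-/

set_option autoImplicit false
set_option linter.unusedSectionVars false
set_option maxHeartbeats 1000000
set_option synthInstance.maxHeartbeats 400000

open Pool.Agent.Run7.h718.ND

namespace Pool.Agent.Run7.h718.NE

/-- rational functions after the substitution -/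
theorem ratl_of_sg {q : ℂ} (hq0 : q ≠ 0) {h : Mer} (hh : IsRatl (sg q hq0 h)) : IsRatl h := by
  obtain ⟨A, B, hB, hAB⟩ := hh
  have hcmp : ∀ P : Polynomial ℂ, cmp q (pol (P.comp (Polynomial.C q⁻¹ * Polynomial.X))) = pol P := by
    intro P
    apply Subtype.ext
    funext z
    rw [cmp_apply, pol_apply, pol_apply, Polynomial.eval_comp, Polynomial.eval_mul,
      Polynomial.eval_C, Polynomial.eval_X, inv_mul_cancel_left₀ hq0]
  refine ⟨A.comp (Polynomial.C q⁻¹ * Polynomial.X), B.comp (Polynomial.C q⁻¹ * Polynomial.X), ?_, ?_⟩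
  · intro h0
    have h1 := hcmp B
    rw [h0, pol_zero, map_zero] at h1
    exact pol_ne hB h1.symm
  · apply sg_inj hq0
    rw [map_mul, sg_im, sg_im, hcmp, hcmp, hAB]

theorem ratl_of_sg_iter {q : ℂ} (hq0 : q ≠ 0) (k : ℕ) : ∀ {h : Mer},
    IsRatl ((sg q hq0)^[k] h) → IsRatl h := by
  induction k with
  | zero => exact fun h => h
  | succ k ih =>
    intro h hh
    rw [Function.iterate_succ_apply] at hh
    exact ratl_of_sg hq0 (ih hh)

section

variable {K : Type} [Field K] [Algebra ℂ K] {q : ℂ} (hq0 : q ≠ 0)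
  (hqr : ∀ n : ℕ, 0 < n → q ^ n ≠ 1) (σ : K →ₐ[ℂ] K) (κ : K →ₐ[ℂ] Mer)
  (hκ : ∀ r, κ (σ r) = sg q hq0 (κ r))

/-- a semilinear map is linear over the constants -/
def linC {T : Type} [AddCommGroup T] [Module K T] [Module ℂ T] [IsScalarTower ℂ K T]
    (S : T →ₛₗ[(σ : K →+* K)] T) : T →ₗ[ℂ] T where
  toFun := S
  map_add' := S.map_add
  map_smul' := by
    intro c t
    have h1 : c • t = (algebraMap ℂ K c) • t := (algebraMap_smul K c t).symm
    rw [h1, S.map_smulₛₗ]
    have h2 : (σ : K →+* K) (algebraMap ℂ K c) = algebraMap ℂ K c := σ.commutes c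
    rw [h2, algebraMap_smul]
    rfl

include hqr hκ in
theorem semi (d : ℕ) : ∀ (T : Type) [AddCommGroup T] [Module K T] [Module ℂ T]
    [IsScalarTower ℂ K T] (S : T →ₛₗ[(σ : K →+* K)] T) (V : Submodule ℂ T)
    [FiniteDimensional ℂ V], (∀ v ∈ V, S v ∈ V) → (∀ v ∈ V, ∃ u ∈ V, S u = v) →
    Module.finrank ℂ V = d → ∀ (v : T) (r : K), v ∈ V → r • v ∈ V → v ≠ 0 → IsRatl (κ r) := by
  induction d using Nat.strong_induction_on with
  | _ d ih =>
    intro T _ _ _ _ S V _ hV hsurj hd v r hv hrv hv0
    classical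
    let S0 : V →ₗ[ℂ] V := (linC σ S).restrict hV
    have hS0 : ∀ u : V, ((S0 u : V) : T) = S u := fun u => rfl
    have hS0s : Function.Surjective S0 := by
      rintro ⟨u, hu⟩
      obtain ⟨t, ht, htu⟩ := hsurj u hu
      exact ⟨⟨t, ht⟩, Subtype.ext htu⟩
    have hS0i : Function.Injective S0 := LinearMap.injective_iff_surjective.2 hS0s
    have : Nontrivial V := ⟨⟨v, hv⟩, 0, fun h => hv0 (congrArg Subtype.val h)⟩
    obtain ⟨lam, hlam⟩ := Module.End.exists_eigenvalue S0
    obtain ⟨e, he⟩ := hlam.exists_hasEigenvector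
    have he0 : (e : T) ≠ 0 := fun h => he.2 (Subtype.ext h)
    have heS : S (e : T) = lam • (e : T) := by
      rw [← hS0, he.apply_eq_smul]
      rfl
    have hlam0 : lam ≠ 0 := by
      rintro rfl
      rw [zero_smul] at heS
      apply he.2
      apply hS0i
      rw [map_zero]
      exact Subtype.ext heS
    by_cases hve : v ∈ Submodule.span K {(e : T)}
    · -- all is proportional to the eigenvector
      obtain ⟨a, ha⟩ := Submodule.mem_span_singleton.1 hve
      have ha0 : a ≠ 0 := by
        rintro rfl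
        rw [zero_smul] at ha
        exact hv0 ha.symm
      let H : Submodule ℂ K :=
        { carrier := {c | c • (e : T) ∈ V}
          zero_mem' := by
            change (0 : K) • (e : T) ∈ V
            rw [zero_smul]
            exact V.zero_mem
          add_mem' := by
            intro a b ha hb
            change (a + b) • (e : T) ∈ V
            rw [add_smul]
            exact V.add_mem ha hb
          smul_mem' := by
            intro c a ha
            change (c • a) • (e : T) ∈ V
            rw [smul_assoc]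
            exact V.smul_mem c ha }
      have hHmem : ∀ c, c ∈ H ↔ c • (e : T) ∈ V := fun c => Iff.rfl
      let φ : H →ₗ[ℂ] V :=
        { toFun := fun c => ⟨(c : K) • (e : T), c.2⟩
          map_add' := fun a b => Subtype.ext (add_smul _ _ _)
          map_smul' := fun c a => Subtype.ext (smul_assoc _ _ _) }
      have hφ : Function.Injective φ := by
        intro a b hab
        have h1 : (a : K) • (e : T) = (b : K) • (e : T) := congrArg Subtype.val hab
        exact Subtype.ext (smul_left_injective K he0 h1)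
      have hHf : FiniteDimensional ℂ H := FiniteDimensional.of_injective φ hφ
      have hHs : ∀ h ∈ H.map κ.toLinearMap, sg q hq0 h ∈ H.map κ.toLinearMap := by
        rintro _ ⟨c, hc, rfl⟩
        refine ⟨σ c, ?_, hκ c⟩
        have h1 : S (c • (e : T)) ∈ V := hV _ hc
        rw [S.map_smulₛₗ, heS] at h1
        have h2 : ((σ : K →+* K) c) • lam • (e : T) = lam • (σ c) • (e : T) := by
          rw [← algebraMap_smul K lam (e : T), ← algebraMap_smul K lam ((σ c) • (e : T)), smul_smul,
            smul_smul, mul_comm]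
          rfl
        rw [h2] at h1
        have h3 := V.smul_mem lam⁻¹ h1
        rw [smul_smul, inv_mul_cancel₀ hlam0, one_smul] at h3
        exact h3
      obtain ⟨m, hm⟩ := laurent hq0 hqr (H.map κ.toLinearMap) hHs
      have haH : a ∈ H := by
        rw [hHmem, ha]
        exact hv
      have hraH : r * a ∈ H := by
        rw [hHmem, mul_smul, ha]
        exact hrv
      obtain ⟨P, hP⟩ := hm (κ a) ⟨a, haH, rfl⟩
      obtain ⟨Q, hQ⟩ := hm (κ (r * a)) ⟨r * a, hraH, rfl⟩
      refine ⟨Q, P, ?_, ?_⟩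
      · rintro rfl
        rw [pol_zero] at hP
        rcases mul_eq_zero.1 (hP.trans (map_zero _)) with h1 | h1
        · exact pow_ne_zero _ (im_ne zz_ne) h1
        · exact ha0 (κ.toRingHom.injective (h1.trans (map_zero κ).symm))
      · rw [← hP, ← hQ, map_mul]
        ring
    · -- pass to the quotient
      let U : Submodule K T := Submodule.span K {(e : T)}
      have hUS : U ≤ U.comap S := by
        rw [Submodule.span_le]
        rintro _ rfl
        change S (e : T) ∈ U
        rw [heS, ← algebraMap_smul K]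
        exact U.smul_mem _ (Submodule.mem_span_singleton_self _)
      let S' : (T ⧸ U) →ₛₗ[(σ : K →+* K)] (T ⧸ U) := U.mapQ U S hUS
      have hS' : ∀ t, S' (U.mkQ t) = U.mkQ (S t) := fun t => Submodule.mapQ_apply _ _ _ _
      let π : V →ₗ[ℂ] (T ⧸ U) := (U.mkQ.restrictScalars ℂ).comp V.subtype
      have hπ : ∀ u : V, π u = U.mkQ (u : T) := fun u => rfl
      have hlt : Module.finrank ℂ (LinearMap.range π) < d := by
        have h1 := LinearMap.finrank_range_add_finrank_ker π
        have h2 : 0 < Module.finrank ℂ (LinearMap.ker π) := by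
          rw [Module.finrank_pos_iff_exists_ne_zero]
          refine ⟨⟨e, ?_⟩, fun h => he.2 (congrArg Subtype.val h)⟩
          rw [LinearMap.mem_ker, hπ, Submodule.mkQ_apply, Submodule.Quotient.mk_eq_zero]
          exact Submodule.mem_span_singleton_self _
        omega
      refine ih _ hlt (T ⧸ U) S' (LinearMap.range π) ?_ ?_ rfl (U.mkQ v) r ⟨⟨v, hv⟩, rfl⟩ ?_ ?_
      · rintro _ ⟨u, rfl⟩
        rw [hπ, hS']
        exact ⟨⟨S u, hV _ u.2⟩, rfl⟩
      · rintro _ ⟨u, rfl⟩
        obtain ⟨t, ht, htu⟩ := hsurj u u.2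
        exact ⟨U.mkQ t, ⟨⟨t, ht⟩, rfl⟩, by rw [hS', htu, hπ]⟩
      · rw [← map_smul]
        exact ⟨⟨r • v, hrv⟩, rfl⟩
      · intro h0
        rw [Submodule.mkQ_apply, Submodule.Quotient.mk_eq_zero] at h0
        exact hve h0

include hqr hκ in
/-- **The quotient of two proportional elements is a rational function.** -/
theorem semi_main {T : Type} [AddCommGroup T] [Module K T] [Module ℂ T]
    [IsScalarTower ℂ K T] (S : T →ₛₗ[(σ : K →+* K)] T) (V : Submodule ℂ T)
    [FiniteDimensional ℂ V] (hV : ∀ v ∈ V, S v ∈ V) {v : T} {r : K} (hv : v ∈ V)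
    (hrv : r • v ∈ V) (hv0 : ∀ k : ℕ, S^[k] v ≠ 0) : IsRatl (κ r) := by
  let S0 : V →ₗ[ℂ] V := (linC σ S).restrict hV
  obtain ⟨k, hk⟩ := IsArtinian.monotone_stabilizes (LinearMap.iterateRange S0)
  have hk1 : LinearMap.range (S0 ^ k) = LinearMap.range (S0 ^ (k + 1)) := hk (k + 1) (Nat.le_succ k)
  let W : Submodule ℂ T := (LinearMap.range (S0 ^ k)).map V.subtype
  have hit : ∀ (j : ℕ) (u : V), (((S0 ^ j) u : V) : T) = S^[j] (u : T) := by
    intro j
    induction j with
    | zero => exact fun u => rfl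
    | succ j ih =>
      intro u
      rw [pow_succ', Module.End.mul_apply, Function.iterate_succ_apply', ← ih]
      rfl
  have hWf : FiniteDimensional ℂ W := inferInstance
  have hrk : ∀ (j : ℕ) (c : K) (t : T), S^[j] (c • t) = (σ^[j] c) • S^[j] t := by
    intro j
    induction j with
    | zero => exact fun c t => rfl
    | succ j ih =>
      intro c t
      rw [Function.iterate_succ_apply', Function.iterate_succ_apply', Function.iterate_succ_apply',
        ih, S.map_smulₛₗ]
      rfl
  have h1 := semi hq0 hqr σ κ hκ _ T S W (by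
      rintro _ ⟨_, ⟨u, rfl⟩, rfl⟩
      refine ⟨S0 ((S0 ^ k) u), ?_, rfl⟩
      change S0 ((S0 ^ k) u) ∈ LinearMap.range (S0 ^ k)
      rw [hk1]
      exact ⟨u, by rw [pow_succ', Module.End.mul_apply]⟩) (by
      rintro _ ⟨w, hw, rfl⟩
      have hw' : w ∈ LinearMap.range (S0 ^ k) := hw
      rw [hk1] at hw'
      obtain ⟨u, hu⟩ := hw'
      refine ⟨((S0 ^ k) u : V), ⟨(S0 ^ k) u, ⟨u, rfl⟩, rfl⟩, ?_⟩
      rw [← hu, pow_succ', Module.End.mul_apply]
      rfl) rfl (S^[k] v) (σ^[k] r) ⟨(S0 ^ k) ⟨v, hv⟩, ⟨_, rfl⟩, hit k ⟨v, hv⟩⟩ (by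
      rw [← hrk]
      exact ⟨(S0 ^ k) ⟨r • v, hrv⟩, ⟨_, rfl⟩, hit k ⟨r • v, hrv⟩⟩) (hv0 k)
  have h2 : ∀ j : ℕ, κ (σ^[j] r) = (sg q hq0)^[j] (κ r) := by
    intro j
    induction j with
    | zero => rfl
    | succ j ih => rw [Function.iterate_succ_apply', Function.iterate_succ_apply', hκ, ih]
  rw [h2] at h1
  exact ratl_of_sg_iter hq0 k h1

end

end Pool.Agent.Run7.h718.NE
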