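import Pool.Agent.Run7.h718.NE.Bound
import Pool.Agent.Run7.h718.NE.Semi

/-!
Regular covariant tensors and finitely generated difference fields of meromorphic functions.
-/

set_option autoImplicit false
set_option linter.overlappingInstances false
set_option linter.unusedSectionVars false
set_option maxHeartbeats 1000000
set_option synthInstance.maxHeartbeats 400000

open FF Pool.Agent.W602.GT Pool.Agent.W603.LV Pool.Agent.W619.PQ Pool.Agent.Y172
open Pool.Agent.Run7.h718.ND (Mer sg IsRatl)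

namespace Pool.Agent.Run7.h718.NE

/-- the value of a derivation -/
def evalD {L : Type} [Field L] [Algebra ℂ L] (a : L) : Derivation ℂ L L →ₗ[L] L where
  toFun D := D a
  map_add' _ _ := rfl
  map_smul' _ _ := rfl

section

variable {K L : Type} [Field K] [Algebra ℂ K] [Field L] [Algebra ℂ L] {n M : ℕ}

/-- the pull-back of a tensor -/
noncomputable def pvalM (τ : K →ₐ[ℂ] L) (x : Fin n → K) (E : Fin n → Derivation ℂ K K)
    (θ : MultilinearMap K (fun _ : Fin M => Derivation ℂ K K) K) :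
    MultilinearMap L (fun _ : Fin M => Derivation ℂ L L) L :=
  ∑ J : Fin M → Fin n, τ (comp E θ J) •
    (MultilinearMap.mkPiAlgebra L (Fin M) L).compLinearMap fun i => evalD (τ (x (J i)))

theorem pvalM_apply (τ : K →ₐ[ℂ] L) (x : Fin n → K) (E : Fin n → Derivation ℂ K K)
    (θ : MultilinearMap K (fun _ : Fin M => Derivation ℂ K K) K) (D : Fin M → Derivation ℂ L L) :
    pvalM τ x E θ D = pval τ x E θ D := by
  unfold pvalM pval
  rw [MultilinearMap.sum_apply]
  refine Finset.sum_congr rfl fun J _ => ?_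
  rw [MultilinearMap.smul_apply, MultilinearMap.compLinearMap_apply,
    MultilinearMap.mkPiAlgebra_apply]
  rfl

theorem comp_pvalM (τ : K →ₐ[ℂ] L) (x : Fin n → K) (E : Fin n → Derivation ℂ K K)
    (θ : MultilinearMap K (fun _ : Fin M => Derivation ℂ K K) K) {N : ℕ}
    (F : Fin N → Derivation ℂ L L) (I : Fin M → Fin N) :
    comp F (pvalM τ x E θ) I = pull τ x F (comp E θ) I := by
  unfold comp
  rw [pvalM_apply]
  rfl

end

/-- **Quotients of proportional regular tensors.** -/
theorem main_abs {K0 K : Type} [Field K0] [Algebra ℂ K0] [Algebra.EssFiniteType ℂ K0] [Field K]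
    [Algebra ℂ K] [Algebra.EssFiniteType ℂ K] {w : ℕ} (hw : Algebra.trdeg ℂ K0 = w) {q : ℂ}
    (hq0 : q ≠ 0) (hqr : ∀ n : ℕ, 0 < n → q ^ n ≠ 1) (σ : K →ₐ[ℂ] K) (κ : K →ₐ[ℂ] Mer)
    (hκ : ∀ r, κ (σ r) = sg q hq0 (κ r)) (τ : K0 →ₐ[ℂ] K) {M : ℕ}
    {θ : MultilinearMap K0 (fun _ : Fin M => Derivation ℂ K0 K0) K0} (hθ : RegTensor w θ)
    (h0 : θ ≠ 0) {r : K0} (hr : RegTensor w (r • θ)) : IsRatl (κ (τ r)) := by
  classical
  obtain ⟨N, hN⟩ := Cardinal.lt_aleph0.1 (trdeg_lt_aleph0 ℂ K)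
  obtain ⟨X, F, hX, hF, H, hH, hfin⟩ := tensor_finite hN M
  obtain ⟨x, E, hx, hE⟩ := exists_crd hw (k := ℂ) (K := K0)
  let S : ((Fin M → Fin N) → K) →ₛₗ[(σ : K →+* K)] ((Fin M → Fin N) → K) := pull σ X F
  have hS : ∀ (τ : K0 →ₐ[ℂ] K) (v : MultilinearMap K0 (fun _ : Fin M => Derivation ℂ K0 K0) K0),
      S (pull τ x F (comp E v)) = pull (σ.comp τ) x F (comp E v) := fun τ v =>
    pull_pull τ σ hX hF x F _
  let G : Set ((Fin M → Fin N) → K) := {Ψ | ∃ (τ : K0 →ₐ[ℂ] K)
    (v : MultilinearMap K0 (fun _ : Fin M => Derivation ℂ K0 K0) K0), RegTensor w v ∧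
      Ψ = pull τ x F (comp E v)}
  have hGH : ∀ Ψ ∈ Submodule.span ℂ G, ∀ I, Ψ I ∈ H := by
    intro Ψ hΨ
    induction hΨ using Submodule.span_induction with
    | mem Ψ h =>
      obtain ⟨τ, v, hv, rfl⟩ := h
      intro I
      rw [← comp_pvalM]
      refine hfin _ (fun Q hQ D hD => ?_) I
      rw [pvalM_apply]
      exact reg_pval hw hN τ hx hE hv Q hQ hD
    | zero => exact fun I => H.zero_mem
    | add a b _ _ ha hb => exact fun I => H.add_mem (ha I) (hb I)
    | smul c a _ ha => exact fun I => H.smul_mem c (ha I)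
  let φ : Submodule.span ℂ G →ₗ[ℂ] ((Fin M → Fin N) → H) :=
    { toFun := fun Ψ I => ⟨(Ψ : (Fin M → Fin N) → K) I, hGH _ Ψ.2 I⟩
      map_add' := fun _ _ => rfl
      map_smul' := fun _ _ => rfl }
  have hφ : Function.Injective φ := by
    intro a b hab
    apply Subtype.ext
    funext I
    exact congrArg Subtype.val (congrFun hab I)
  have hfd : FiniteDimensional ℂ (Submodule.span ℂ G) := FiniteDimensional.of_injective φ hφ
  have hst : ∀ Ψ ∈ Submodule.span ℂ G, S Ψ ∈ Submodule.span ℂ G := by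
    intro Ψ hΨ
    induction hΨ using Submodule.span_induction with
    | mem Ψ h =>
      obtain ⟨τ, v, hv, rfl⟩ := h
      rw [hS]
      exact Submodule.subset_span ⟨_, v, hv, rfl⟩
    | zero =>
      rw [map_zero]
      exact Submodule.zero_mem _
    | add a b _ _ ha hb =>
      rw [map_add]
      exact Submodule.add_mem _ ha hb
    | smul c a _ ha =>
      have h1 : S (c • a) = c • S a := (linC σ S).map_smul c a
      rw [h1]
      exact Submodule.smul_mem _ c ha
  have hne : ∀ (k : ℕ) (τ : K0 →ₐ[ℂ] K), S^[k] (pull τ x F (comp E θ)) ≠ 0 := by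
    intro k
    induction k with
    | zero => exact fun τ => pull_ne τ hx hE hX hF h0
    | succ k ih =>
      intro τ
      rw [Function.iterate_succ_apply, hS]
      exact ih _
  refine semi_main hq0 hqr σ κ hκ S (Submodule.span ℂ G) hst
    (Submodule.subset_span ⟨τ, θ, hθ, rfl⟩) ?_ (fun k => hne k τ)
  have h1 : τ r • pull τ x F (comp E θ) = pull τ x F (comp E (r • θ)) := by
    have h2 : comp E (r • θ) = r • comp E θ := rfl
    rw [h2, LinearMap.map_smulₛₗ]
    rfl
  rw [h1]
  exact Submodule.subset_span ⟨τ, r • θ, hr, rfl⟩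

end Pool.Agent.Run7.h718.NE
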