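import Pool.Agent.Run7.h718.NE.Jac
import Pool.Agent.Run7.h718.NE.Main
import Pool.Agent.Y172.UpE

/-!
Divisorial places at the zeros of a function, and values of regular vector fields on it.
-/

set_option autoImplicit false
set_option linter.overlappingInstances false
set_option linter.unusedSectionVars false
set_option maxHeartbeats 1000000
set_option synthInstance.maxHeartbeats 400000

open FF Pool.Agent.W602.GT Pool.Agent.W603.LV Pool.Agent.W619.PQ Pool.Agent.Y172

namespace Pool.Agent.Run7.h718.NE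

/-- exchange -/
theorem exch {K : Type} [Field K] [Algebra ℂ K] {t r : K} (hr : Transcendental ℂ r)
    (h : IsAlgebraic (Algebra.adjoin ℂ {t}) r) : IsAlgebraic (Algebra.adjoin ℂ {r}) t := by
  by_cases htr : t = r
  · rw [htr]
    exact isAlgebraic_algebraMap (⟨r, Algebra.subset_adjoin rfl⟩ : Algebra.adjoin ℂ {r})
  by_contra hno
  have h1 : AlgebraicIndepOn ℂ (id : K → K) {r} := by
    have h2 : AlgebraicIndependent ℂ (fun i : ({r} : Set K) => (i : K)) := by
      rw [algebraicIndependent_unique_type_iff]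
      have h3 : ((default : ({r} : Set K)) : K) = r := rfl
      rw [h3]
      exact hr
    exact h2
  have h2 : AlgebraicIndepOn ℂ (id : K → K) (insert t {r}) := by
    refine (AlgebraicIndepOn.insert_iff (s := {r}) (i := t)
      (show t ∉ ({r} : Set K) from htr)).2 ⟨h1, ?_⟩
    rw [Set.image_id]
    exact hno
  rw [Set.pair_comm] at h2
  have h3 := ((AlgebraicIndepOn.insert_iff (s := {t}) (i := r)
    (show r ∉ ({t} : Set K) from fun h3 => htr h3.symm)).1 h2).2
  rw [Set.image_id] at h3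
  exact h3 h

section

variable {F : Type} [Field F] [Algebra ℂ F] {N : ℕ}

/-- a transcendental function vanishes at a divisorial place -/
theorem exists_zero [Algebra.EssFiniteType ℂ F] (hN : Algebra.trdeg ℂ F = N) {Z : F}
    (hZ : Transcendental ℂ Z) : ∃ Q : Place ℂ F, Divisorial N Q ∧ 0 < Q.ord Z := by
  classical
  have h1 : AlgebraicIndependent ℂ (fun _ : Unit => Z) := by
    rw [algebraicIndependent_unique_type_iff]
    exact hZ
  obtain ⟨κ, s, hs⟩ := basis_ext h1
  have h2 := hs.cardinalMk_eq_trdeg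
  rw [hN] at h2
  have h3 : Cardinal.lift.{0} (Cardinal.mk (Unit ⊕ κ)) = Cardinal.lift.{0} (Cardinal.mk (Fin N)) := by
    rw [h2]
    simp
  obtain ⟨e⟩ := Cardinal.lift_mk_eq'.1 h3
  let X : Fin N → F := Sum.elim (fun _ : Unit => Z) s ∘ e.symm
  have hX : IsTranscendenceBasis ℂ X := (isTranscendenceBasis_equiv e.symm).2 hs
  obtain ⟨j0, hj0⟩ : ∃ j0, j0 = e (Sum.inl ()) := ⟨_, rfl⟩
  have hXZ : X j0 = Z := by
    change Sum.elim (fun _ : Unit => Z) s (e.symm j0) = Z
    rw [hj0, Equiv.symm_apply_apply]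
    rfl
  have hfd : FiniteDimensional (IntermediateField.adjoin ℂ (Set.range X)) F := fd_basis hX
  let B := IntermediateField.adjoin ℂ (Set.range X)
  let u : Fin N → B := fun i => ⟨X i, IntermediateField.subset_adjoin ℂ _ ⟨i, rfl⟩⟩
  have hutop : IntermediateField.adjoin ℂ (Set.range u) = ⊤ := by
    apply IntermediateField.lift_injective
    rw [IntermediateField.lift_adjoin, IntermediateField.lift_top]
    congr 1
    ext t
    constructor
    · rintro ⟨_, ⟨i, rfl⟩, rfl⟩
      exact ⟨i, rfl⟩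
    · rintro ⟨i, rfl⟩
      exact ⟨u i, ⟨i, rfl⟩, rfl⟩
  have hu : AlgebraicIndependent ℂ u :=
    AlgebraicIndependent.of_comp B.val hX.1
  have hu' : AlgebraicIndependent (⊥ : IntermediateField ℂ B) u := by
    have h4 := hu.ringHom_of_comp_eq (f := (algebraMap ℂ (⊥ : IntermediateField ℂ B)))
      (g := RingHom.id B) (by
        rintro ⟨c, hc⟩
        obtain ⟨c', hc'⟩ := IntermediateField.mem_bot.1 hc
        exact ⟨c', Subtype.ext hc'⟩) Function.injective_id rfl
    exact h4
  obtain ⟨Q, -, hQ, hQd, -⟩ := place_eps (k := ℂ) (K := B) (M1 := ⊥) hu' (by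
      rw [← top_le_iff, ← hutop]
      exact IntermediateField.adjoin.mono _ _ _ Set.subset_union_right)
    (z := (Fin.elim0 : Fin 0 → B)) (fun i => i.elim0) (fun l v hv => by
      have h4 : AlgebraicIndependent ℂ v := hv.restrictScalars
        (RingHom.injective (algebraMap ℂ (⊥ : IntermediateField ℂ B)))
      have h5 : (Sum.elim v (Fin.elim0 : Fin 0 → B)) = v ∘ (Equiv.sumEmpty (Fin l) (Fin 0)) := by
        funext i
        rcases i with i | i
        · rfl
        · exact i.elim0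
      rw [h5]
      exact (algebraicIndependent_equiv _).2 h4) (n := N) (by omega) j0 (ε := -1) (by norm_num)
  obtain ⟨Q', e', hov⟩ := exists_above (L := F) Q
  refine ⟨Q', divisorial_up hov hQd, ?_⟩
  have h4 : Q.ord (u j0) = 1 := by
    have h5 := hQ (fun i => if i = j0 then 1 else 0)
    have h6 : mono u (fun i => if i = j0 then (1 : ℤ) else 0) = u j0 := by
      unfold mono
      rw [Finset.prod_eq_single j0]
      · change u j0 ^ (if j0 = j0 then (1 : ℤ) else 0) = u j0
        rw [if_pos rfl, zpow_one]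
      · intro i _ hi
        change u i ^ (if i = j0 then (1 : ℤ) else 0) = 1
        rw [if_neg hi, zpow_zero]
      · intro h
        exact absurd (Finset.mem_univ _) h
    rw [h6, if_pos rfl] at h5
    rw [h5]
    norm_num
  have h5 : Z = algebraMap B F (u j0) := hXZ.symm
  have he : 0 < e' := hov.1
  rw [h5, hov.2, h4]
  omega

/-- a regular vector field with a value of the smallest possible order -/
theorem exists_reg_der [Algebra.EssFiniteType ℂ F] (hN : Algebra.trdeg ℂ F = N) {Q : Place ℂ F}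
    (hQ : Divisorial N Q) {Z : F} (hZ : Q.ord Z ≠ 0) :
    ∃ D : Derivation ℂ F F, DerReg Q D ∧ D Z ≠ 0 ∧ Q.ord (D Z) = Q.ord Z - 1 := by
  have hZ0 : Z ≠ 0 := by
    rintro rfl
    exact hZ Q.ord_zero
  obtain ⟨y, E, i0, hl⟩ := exists_loc hN hQ
  obtain ⟨e, he⟩ : ∃ e : ℤ, e = Q.ord Z := ⟨_, rfl⟩
  obtain ⟨u, hu⟩ : ∃ u : F, u = Z * y i0 ^ (-e) := ⟨_, rfl⟩
  have hy0 := hl.ne
  have hye : y i0 ^ e ≠ 0 := zpow_ne_zero _ hy0
  have hu0 : u ≠ 0 := by
    rw [hu]
    exact mul_ne_zero hZ0 (zpow_ne_zero _ hy0)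
  have huo : Q.ord u = 0 := by
    rw [hu, Q.ord_mul hZ0 (zpow_ne_zero _ hy0), Q.ord_zpow, hl.unif, he]
    ring
  have hZu : Z = u * y i0 ^ e := by
    rw [hu, mul_assoc, ← zpow_add₀ hy0]
    simp
  have hD : E i0 Z = y i0 ^ (e - 1) * ((e : F) * u + y i0 * E i0 u) := by
    rw [hZu, Derivation.leibniz, der_zpow (E i0) hy0, hl.dual, if_pos rfl,
      smul_eq_mul, smul_eq_mul, zpow_sub_one₀ hy0]
    field_simp
  have he0 : (e : F) ≠ 0 := by
    have hk : CharZero F := charZero_of_injective_algebraMap (algebraMap ℂ F).injective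
    rw [he]
    exact_mod_cast hZ
  have h1 : Q.ord ((e : F) * u) = 0 := by
    rw [Q.ord_mul he0 hu0, huo, add_zero]
    have h2 : (e : F) = algebraMap ℂ F (e : ℂ) := (map_intCast _ _).symm
    rw [h2]
    refine Q.ord_const ?_
    rw [he]
    exact_mod_cast hZ
  have h2 : Ge Q 1 (y i0 * E i0 u) := by
    have h3 : Ge Q 0 (E i0 u) := hl.pres i0 u (Or.inr huo.ge)
    have h4 : Ge Q 1 (y i0) := Or.inr hl.unif.ge
    have h5 := h4.mul h3
    rwa [add_zero] at h5
  have h3 : (e : F) * u + y i0 * E i0 u ≠ 0 ∧ Q.ord ((e : F) * u + y i0 * E i0 u) = 0 := by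
    have h4 : (e : F) * u + y i0 * E i0 u ≠ 0 := by
      intro h0
      have h5 : Ge Q 1 ((e : F) * u) := by
        have h6 : (e : F) * u = -(y i0 * E i0 u) := by linear_combination h0
        rw [h6]
        exact h2.neg
      rcases h5 with h5 | h5
      · exact mul_ne_zero he0 hu0 h5
      · omega
    refine ⟨h4, ?_⟩
    have h5 : Ge Q 0 ((e : F) * u + y i0 * E i0 u) :=
      Ge.add (Or.inr h1.ge) (h2.mono (by norm_num))
    have h6 := h5.resolve_left h4
    by_contra h7
    have h8 : Ge Q 1 ((e : F) * u + y i0 * E i0 u) := Or.inr (by omega)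
    have h9 := h8.sub h2
    rw [add_sub_cancel_right] at h9
    rcases h9 with h9 | h9
    · exact mul_ne_zero he0 hu0 h9
    · omega
  refine ⟨E i0, hl.pres i0, ?_, ?_⟩
  · rw [hD]
    exact mul_ne_zero (zpow_ne_zero _ hy0) h3.1
  · rw [hD, Q.ord_mul (zpow_ne_zero _ hy0) h3.1, Q.ord_zpow, hl.unif, h3.2, ← he]
    ring

/-- orders of polynomials at a zero -/
theorem ord_poly_pos {Q : Place ℂ F} {Z : F} (hZ : 0 < Q.ord Z) {P : Polynomial ℂ} (hP : P ≠ 0) :
    Polynomial.aeval Z P ≠ 0 ∧ Q.ord (Polynomial.aeval Z P) = P.natTrailingDegree * Q.ord Z := by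
  have hZ0 : Z ≠ 0 := by
    rintro rfl
    rw [Q.ord_zero] at hZ
    omega
  obtain ⟨P0, hP0⟩ := Polynomial.X_pow_dvd_iff.2 (fun d hd =>
    Polynomial.coeff_eq_zero_of_lt_natTrailingDegree (p := P) (n := d) hd)
  have hc : P0.coeff 0 ≠ 0 := by
    have h1 : P.coeff P.natTrailingDegree = P0.coeff 0 := by
      have h2 := Polynomial.coeff_X_pow_mul P0 P.natTrailingDegree 0
      rw [zero_add, ← hP0] at h2
      exact h2
    rw [← h1]
    exact Polynomial.trailingCoeff_nonzero_iff_nonzero.2 hP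
  have hsplit : P0 = Polynomial.C (P0.coeff 0) + Polynomial.X * P0.divX := by
    rw [add_comm, mul_comm]
    exact (Polynomial.divX_mul_X_add P0).symm
  obtain ⟨b, hb⟩ : ∃ b : F, b = Polynomial.aeval Z P0 := ⟨_, rfl⟩
  have hbe : b = algebraMap ℂ F (P0.coeff 0) + Z * Polynomial.aeval Z P0.divX := by
    rw [hb]
    conv_lhs => rw [hsplit]
    rw [map_add, map_mul, Polynomial.aeval_C, Polynomial.aeval_X]
  have hreg : ∀ R : Polynomial ℂ, Ge Q 0 (Polynomial.aeval Z R) := by
    intro R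
    rw [Polynomial.aeval_eq_sum_range]
    refine Ge.sum _ _ fun i _ => ?_
    rw [Algebra.smul_def]
    have h1 : Ge Q 0 (Z ^ i) := by
      have h2 : Ge Q 0 Z := Or.inr hZ.le
      have h3 := h2.pow i
      rwa [mul_zero] at h3
    have h2 := (Ge.const (P := Q) (R.coeff i)).mul h1
    rwa [add_zero] at h2
  have h1 : Ge Q 1 (Z * Polynomial.aeval Z P0.divX) := by
    have h2 : Ge Q 1 Z := Or.inr (by omega)
    have h3 := h2.mul (hreg P0.divX)
    rwa [add_zero] at h3
  have hcne : algebraMap ℂ F (P0.coeff 0) ≠ 0 := by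
    rw [Ne, map_eq_zero]
    exact hc
  have hco : Q.ord (algebraMap ℂ F (P0.coeff 0)) = 0 := Q.ord_const hc
  have hb0 : b ≠ 0 := by
    intro h0
    have h5 : Ge Q 1 (algebraMap ℂ F (P0.coeff 0)) := by
      have h6 : algebraMap ℂ F (P0.coeff 0) = -(Z * Polynomial.aeval Z P0.divX) := by
        rw [h0] at hbe
        linear_combination -hbe
      rw [h6]
      exact h1.neg
    rcases h5 with h5 | h5
    · exact hcne h5
    · omega
  have hbo : Q.ord b = 0 := by
    have h6 : 0 ≤ Q.ord b := (hb ▸ hreg P0).resolve_left hb0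
    by_contra h7
    have h8 : Ge Q 1 b := Or.inr (by omega)
    have h9 := h8.sub h1
    rw [hbe, add_sub_cancel_right] at h9
    rcases h9 with h9 | h9
    · exact hcne h9
    · omega
  have hPe : Polynomial.aeval Z P = Z ^ P.natTrailingDegree * b := by
    conv_lhs => rw [hP0]
    rw [map_mul, map_pow, Polynomial.aeval_X, hb]
  rw [hPe]
  refine ⟨mul_ne_zero (pow_ne_zero _ hZ0) hb0, ?_⟩
  rw [Q.ord_mul (pow_ne_zero _ hZ0) hb0, Q.ord_pow, hbo, add_zero]

/-- orders of polynomials at a pole -/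
theorem ord_poly_neg {Q : Place ℂ F} {Z : F} (hZ : Q.ord Z < 0) {P : Polynomial ℂ} (hP : P ≠ 0) :
    Polynomial.aeval Z P ≠ 0 ∧ Q.ord (Polynomial.aeval Z P) = P.natDegree * Q.ord Z := by
  have hZ0 : Z ≠ 0 := by
    rintro rfl
    rw [Q.ord_zero] at hZ
    omega
  have hinv : 0 < Q.ord Z⁻¹ := by
    rw [Q.ord_inv]
    omega
  have hrev : P.reverse ≠ 0 := by
    rw [Ne, Polynomial.reverse_eq_zero]
    exact hP
  obtain ⟨h1, h2⟩ := ord_poly_pos hinv hrev
  have h3 : P.reverse.natTrailingDegree = 0 := by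
    rw [Polynomial.natTrailingDegree_reverse]
  have h4 : Polynomial.aeval Z⁻¹ P.reverse * Z ^ P.natDegree = Polynomial.aeval Z P := by
    have : Invertible Z := invertibleOfNonzero hZ0
    have h5 := Polynomial.eval₂_reverse_mul_pow (algebraMap ℂ F) Z P
    rw [invOf_eq_inv] at h5
    exact h5
  rw [h3, Nat.cast_zero, zero_mul] at h2
  rw [← h4]
  refine ⟨mul_ne_zero h1 (pow_ne_zero _ hZ0), ?_⟩
  rw [Q.ord_mul h1 (pow_ne_zero _ hZ0), h2, Q.ord_pow, zero_add]

end

end Pool.Agent.Run7.h718.NE
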