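import Pool.Agent.Run7.h718.NE.Defs
import Pool.Agent.Run7.h718.ND.Cur

/-!
The difference field of a curve which satisfies a `q`-difference equation.
-/

set_option autoImplicit false
set_option linter.overlappingInstances false
set_option linter.unusedSectionVars false
set_option maxHeartbeats 1000000
set_option synthInstance.maxHeartbeats 400000

open MvPolynomial
open Pool.Agent.Run7.h718.ND (Mer Ent im im_inj im_ne im_mul cmp cmp_apply cmp_inj sg sg_im fe evl
  evl_apply ent_ext)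

namespace Pool.Agent.Run7.h718.NE

/-- scaling of forms -/
theorem eval₂_scale {ι R S : Type} [Fintype ι] [CommRing R] [CommRing S] (Φ : R →+* S)
    {P : MvPolynomial ι R} {e : ℕ} (hP : P.IsHomogeneous e) (v : ι → S) (c : S) :
    eval₂ Φ (fun j => c * v j) P = c ^ e * eval₂ Φ v P := by
  rw [eval₂_eq', eval₂_eq', Finset.mul_sum]
  refine Finset.sum_congr rfl fun α hα => ?_
  have h2 : ∑ a, α a = e := by
    have := hP (mem_support_iff.1 hα)
    rw [← this, Finsupp.weight_apply, Finsupp.sum_fintype _ _ (by simp)]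
    simp
  have h3 : ∏ a, (c * v a) ^ α a = c ^ e * ∏ a, v a ^ α a := by
    rw [← h2, ← Finset.prod_pow_eq_pow_sum, ← Finset.prod_mul_distrib]
    exact Finset.prod_congr rfl fun a _ => mul_pow _ _ _
  rw [h3]; ring

theorem evl_aeval {l : ℕ} (cE : Fin l → Ent) (G : MvPolynomial (Fin l) ℂ) (z : ℂ) :
    evl z (aeval cE G) = eval (fun i => (cE i).1 z) G := by
  rw [aeval_def, eval₂_comp_left (evl z)]
  have h1 : (evl z).comp (algebraMap ℂ Ent) = RingHom.id ℂ := rfl
  rw [h1]
  rfl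

theorem cmp_cmp (q a : ℂ) (g : Ent) : cmp q (cmp a g) = cmp (a * q) g := by
  apply Subtype.ext
  funext z
  rw [cmp_apply, cmp_apply, cmp_apply, mul_assoc]

theorem cmp_one (g : Ent) : cmp 1 g = g := by
  apply Subtype.ext
  funext z
  rw [cmp_apply, one_mul]

theorem exists_field {n : ℕ} {f : ℂ → Fin (n + 1) → ℂ}
    (hd : ∀ j, Differentiable ℂ (fun z => f z j)) {q : ℂ} (hq0 : q ≠ 0) {m : ℕ}
    (hne : ∃ k0, fe hd k0 ≠ 0) (hDE : DiffEq q m f) :
    ∃ K : IntermediateField ℂ Mer, Algebra.EssFiniteType ℂ K ∧ (∀ x ∈ K, sg q hq0 x ∈ K) ∧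
      im ND.zz ∈ K ∧ ∀ i j, im (fe hd i) / im (fe hd j) ∈ K := by
  obtain ⟨l, c, R0, R, e, P, hc, ⟨zR, hR0⟩, hR, hP, ⟨z0, i0, hz0⟩, heq⟩ := hDE
  obtain ⟨k0, hk0⟩ := hne
  let cE : Fin l → Ent := fun i => ⟨fun z => c z i, hc i⟩
  let φ : MvPolynomial (Fin l) ℂ →+* Ent := (aeval cE : MvPolynomial (Fin l) ℂ →ₐ[ℂ] Ent)
  have hφ : ∀ z G, evl z (φ G) = eval (c z) G := fun z G => evl_aeval cE G z
  let segE : (Fin m → Fin (n + 1)) → Ent := fun s => ∏ k : Fin m, cmp (q ^ (k : ℕ)) (fe hd (s k))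
  have hseg : ∀ z s, evl z (segE s) = seg q m f z s := fun z s => map_prod (evl z) _ _
  let pe : Fin (n + 1) → Ent := fun i => eval₂ φ segE (P i)
  have hpev : ∀ z i, evl z (pe i) = pev (P i) (c z) (seg q m f z) := by
    intro z i
    change evl z (eval₂ φ segE (P i)) = _
    rw [eval₂_comp_left (evl z)]
    have h1 : (evl z).comp φ = eval (c z) := RingHom.ext fun G => hφ z G
    have h2 : (evl z : Ent → ℂ) ∘ segE = seg q m f z := funext fun s => hseg z s
    rw [h1, h2]
    rfl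
  have hpe : ∀ i j, cmp (q ^ m) (fe hd i) * pe j = cmp (q ^ m) (fe hd j) * pe i := by
    intro i j
    apply ent_ext
    intro z
    rw [map_mul, map_mul, hpev, hpev]
    exact heq z i j
  have hqk : ∀ k : ℕ, q ^ k ≠ 0 := fun k => pow_ne_zero k hq0
  have hcmp0 : ∀ (k : ℕ), cmp (q ^ k) (fe hd k0) ≠ 0 := by
    intro k h0
    exact hk0 (cmp_inj (hqk k) (h0.trans (map_zero _).symm))
  have hpe0 : pe i0 ≠ 0 := by
    intro h0
    apply hz0
    rw [← hpev, h0, map_zero]
  have hpk : pe k0 ≠ 0 := by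
    intro h0
    have h1 := hpe k0 i0
    rw [h0, mul_zero] at h1
    exact mul_ne_zero (hcmp0 m) hpe0 h1
  let rk : ℕ → Fin (n + 1) → Mer := fun k i =>
    im (cmp (q ^ k) (fe hd i)) / im (cmp (q ^ k) (fe hd k0))
  have hsg : ∀ k i, sg q hq0 (rk k i) = rk (k + 1) i := by
    intro k i
    change sg q hq0 (im (cmp (q ^ k) (fe hd i)) / im (cmp (q ^ k) (fe hd k0))) = _
    rw [map_div₀, sg_im, sg_im, cmp_cmp, cmp_cmp, ← pow_succ]
  let G : Set Mer := (Set.range (fun i => im (cE i)) ∪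
    Set.range fun p : Fin m × Fin (n + 1) => rk (p.1 : ℕ) p.2) ∪ {im ND.zz}
  obtain ⟨K, hK⟩ : ∃ K : IntermediateField ℂ Mer, K = IntermediateField.adjoin ℂ G := ⟨_, rfl⟩
  have hGK : ∀ x ∈ G, x ∈ K := by
    rw [hK]
    exact fun x hx => IntermediateField.subset_adjoin ℂ G hx
  have hcK : ∀ i, im (cE i) ∈ K := fun i => hGK _ (Or.inl (Or.inl ⟨i, rfl⟩))
  have hrK : ∀ k, k < m → ∀ i, rk k i ∈ K := fun k hk i => hGK _ (Or.inl (Or.inr ⟨(⟨k, hk⟩, i), rfl⟩))
  have hφK : ∀ C : MvPolynomial (Fin l) ℂ, im (φ C) ∈ K := by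
    intro C
    have h1 : im (φ C) = eval₂ (algebraMap ℂ Mer) (fun i => im (cE i)) C := by
      change (algebraMap Ent Mer) (eval₂ (algebraMap ℂ Ent) cE C) = _
      rw [eval₂_comp_left (algebraMap Ent Mer), ← IsScalarTower.algebraMap_eq]
      rfl
    rw [h1]
    exact eval₂_mem (s := K) (fun α _ => K.algebraMap_mem _) hcK
  -- the last term
  have hlast : ∀ i, rk m i ∈ K := by
    have hval : ∀ i, ∃ a ∈ K, im (pe i) = (∏ k : Fin m, im (cmp (q ^ (k : ℕ)) (fe hd k0))) ^ e * a := by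
      intro i
      refine ⟨eval₂ ((algebraMap Ent Mer).comp φ) (fun s : Fin m → Fin (n + 1) =>
        ∏ k : Fin m, rk (k : ℕ) (s k)) (P i),
        eval₂_mem (s := K) (fun α _ => hφK _) (fun s => prod_mem fun k _ => hrK _ k.2 _), ?_⟩
      have h1 : im (pe i) = eval₂ ((algebraMap Ent Mer).comp φ) (fun s => im (segE s)) (P i) :=
        eval₂_comp_left (algebraMap Ent Mer) φ segE (P i)
      rw [h1, ← eval₂_scale _ (hP i)]
      congr 1
      funext s
      have h2 : im (segE s) = ∏ k : Fin m, im (cmp (q ^ (k : ℕ)) (fe hd (s k))) :=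
        map_prod (algebraMap Ent Mer) _ _
      rw [h2, ← Finset.prod_mul_distrib]
      refine Finset.prod_congr rfl fun k _ => ?_
      have h3 := im_ne (hcmp0 k)
      change _ = im (cmp (q ^ (k : ℕ)) (fe hd k0)) *
        (im (cmp (q ^ (k : ℕ)) (fe hd (s k))) / im (cmp (q ^ (k : ℕ)) (fe hd k0)))
      field_simp
    intro i
    obtain ⟨a, ha, hai⟩ := hval i
    obtain ⟨b, hb, hbk⟩ := hval k0
    have h4 : (∏ k : Fin m, im (cmp (q ^ (k : ℕ)) (fe hd k0))) ^ e ≠ 0 :=
      pow_ne_zero _ (Finset.prod_ne_zero_iff.2 fun k _ => im_ne (hcmp0 k))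
    have h3 : rk m i = im (pe i) / im (pe k0) := by
      change im (cmp (q ^ m) (fe hd i)) / im (cmp (q ^ m) (fe hd k0)) = _
      rw [div_eq_div_iff (im_ne (hcmp0 m)) (im_ne hpk), ← im_mul, ← im_mul, hpe i k0]
      ring_nf
    rw [h3, hai, hbk, mul_div_mul_left _ _ h4]
    exact div_mem ha hb
  have hall : ∀ k, k ≤ m → ∀ i, rk k i ∈ K := by
    intro k hk i
    rcases Nat.lt_or_eq_of_le hk with h | h
    · exact hrK k h i
    · rw [h]
      exact hlast i
  have hzK : im ND.zz ∈ K := hGK _ (Or.inr rfl)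
  refine ⟨K, ?_, ?_, hzK, ?_⟩
  · rw [IntermediateField.essFiniteType_iff, hK]
    exact IntermediateField.fg_adjoin_of_finite (((Set.finite_range _).union
      (Set.finite_range _)).union (Set.finite_singleton _))
  · have hle : K ≤ K.comap (sg q hq0) := by
      conv_lhs => rw [hK]
      rw [IntermediateField.adjoin_le_iff]
      rintro _ ((⟨i, rfl⟩ | ⟨⟨k, i⟩, rfl⟩) | rfl)
      · change sg q hq0 (im (cE i)) ∈ K
        have h1 : cmp q (cE i) * φ R0 = φ (R i) := by
          apply ent_ext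
          intro z
          rw [map_mul, hφ, hφ]
          exact hR z i
        have h2 : φ R0 ≠ 0 := by
          intro h0
          apply hR0
          rw [← hφ, h0, map_zero]
        have h3 : sg q hq0 (im (cE i)) = im (φ (R i)) / im (φ R0) := by
          rw [sg_im, ← h1, im_mul, mul_div_cancel_right₀ _ (im_ne h2)]
        rw [h3]
        exact div_mem (hφK _) (hφK _)
      · change sg q hq0 (rk (k : ℕ) i) ∈ K
        rw [hsg]
        exact hall _ k.2 i
      · change sg q hq0 (im ND.zz) ∈ K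
        have h1 : sg q hq0 (im ND.zz) = q • im ND.zz := by
          rw [sg_im]
          exact map_smul (IsScalarTower.toAlgHom ℂ Ent Mer) q ND.zz
        rw [h1]
        exact K.smul_mem hzK
    exact fun x hx => hle hx
  · intro i j
    have h0 : ∀ i, rk 0 i = im (fe hd i) / im (fe hd k0) := by
      intro i
      change im (cmp (q ^ 0) (fe hd i)) / im (cmp (q ^ 0) (fe hd k0)) = _
      rw [pow_zero, cmp_one, cmp_one]
    have h1 := im_ne hk0
    have h2 : im (fe hd i) / im (fe hd j) = rk 0 i / rk 0 j := by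
      rw [h0, h0, div_div_div_cancel_right₀ h1]
    rw [h2]
    exact div_mem (hall 0 (Nat.zero_le m) i) (hall 0 (Nat.zero_le m) j)

end Pool.Agent.Run7.h718.NE
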