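import Pool.Agent.Run7.h718.NE.Pull
import Pool.Agent.R887.Frm
import Pool.Agent.Y172.Cov3

/-!
Orders of the values of regular tensors on lifted vector fields.
-/

set_option autoImplicit false
set_option linter.overlappingInstances false
set_option linter.unusedSectionVars false
set_option maxHeartbeats 1000000
set_option synthInstance.maxHeartbeats 400000

open FF Pool.Agent.W602.GT Pool.Agent.W603.LV Pool.Agent.W619.PQ Pool.Agent.Y172

namespace Pool.Agent.Run7.h718.NE

section

variable {L : Type} [Field L] [Algebra ℂ L] {n M : ℕ}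

theorem ge_det' {Q : Place ℂ L} {c : ℤ} (A : Matrix (Fin n) (Fin n) L)
    (h : ∀ i j, Ge Q c (A i j)) : Ge Q (n * c) A.det := by
  rw [Matrix.det_apply]
  refine Ge.sum _ _ fun s _ => ?_
  have h1 : Ge Q (∑ i : Fin n, c) (∏ i, A (s i) i) :=
    Ge.prod _ _ (fun _ => c) fun i _ => h _ _
  rw [Finset.sum_const, Finset.card_univ, Fintype.card_fin, nsmul_eq_mul] at h1
  rcases Int.units_eq_one_or (Equiv.Perm.sign s) with h2 | h2 <;> rw [h2]
  · rw [one_smul]
    exact h1
  · rw [Units.neg_smul, one_smul]
    exact h1.neg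

/-- the orders of the values of a regular tensor on the frame `F` dual to `X`, at a place with the
local coordinates `y'` and the local frame `E'` -/
theorem tensor_ord {Q : Place ℂ L} {y' : Fin n → L} {E' : Fin n → Derivation ℂ L L} {j0 : Fin n}
    (hl : Loc Q y' E' j0) {X : Fin n → L} {F : Fin n → Derivation ℂ L L}
    (hF : ∀ i j, F i (X j) = if i = j then 1 else 0) {t : ℕ}
    (ht : ∀ b j, Ge Q (-t) (E' b (X j))) {z : ℤ}
    (hz : Q.ord (Matrix.of fun b j => E' b (X j)).det ≤ z) (hQ : Divisorial n Q)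
    {v : MultilinearMap L (fun _ : Fin M => Derivation ℂ L L) L} (hv : RegTensor n v)
    (I : Fin M → Fin n) : Ge Q (-(M * (n * t + z))) (comp F v I) := by
  classical
  obtain ⟨G, hG⟩ : ∃ G : Matrix (Fin n) (Fin n) L, G = Matrix.of fun b j => E' b (X j) := ⟨_, rfl⟩
  let W : Matrix (Fin n) (Fin n) L := Matrix.of fun k b => F k (y' b)
  have hWG : W * G = 1 := by
    ext k j
    rw [Matrix.mul_apply, Matrix.one_apply, ← hF k j]
    have h4 := congrArg (fun D : Derivation ℂ L L => D (X j))
      (Pool.Agent.W73.PG.PULL.expand y' hl.bas E' hl.dual (F k))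
    rw [hG, ← h4]
    exact (ND.sum_smul_app _ _ _).symm
  have hG0 : G.det ≠ 0 := by
    intro h0
    have h1 := congrArg Matrix.det hWG
    rw [Matrix.det_mul, h0, mul_zero, Matrix.det_one] at h1
    exact zero_ne_one h1
  have hadj : G.adjugate = G.det • W := by
    have h1 : W * (G * G.adjugate) = G.adjugate := by
      rw [← Matrix.mul_assoc, hWG, Matrix.one_mul]
    rw [Matrix.mul_adjugate, Matrix.mul_smul, Matrix.mul_one] at h1
    exact h1.symm
  -- the orders of the coefficients
  have hW : ∀ k b, Ge Q (-(n * t + z)) (F k (y' b)) := by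
    intro k b
    have h1 : Ge Q (n * (-t)) (G.adjugate k b) := by
      rw [Matrix.adjugate_apply]
      refine ge_det' _ fun i j => ?_
      rw [Matrix.updateRow_apply]
      split_ifs with h2
      · by_cases h3 : j = k
        · subst h3
          rw [Pi.single_eq_same]
          exact Ge.one.mono (by omega)
        · rw [Pi.single_eq_of_ne h3]
          exact Ge.zero
      · rw [hG]
        exact ht i j
    rw [hadj, Matrix.smul_apply, smul_eq_mul] at h1
    have h2 := Ge.of_mul hG0 h1
    refine Ge.mono ?_ h2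
    rw [← hG] at hz
    have h3 : (n : ℤ) * (-t) = -(n * t) := by ring
    rw [h3]
    omega
  -- the value
  have h1 : comp F v I = ∑ B : Fin M → Fin n, (∏ i, F (I i) (y' (B i))) * comp E' v B :=
    expand_tensor v hl.bas hl.dual _
  rw [h1]
  refine Ge.sum _ _ fun B _ => ?_
  have h2 : Ge Q (∑ i : Fin M, (-(n * t + z))) (∏ i, F (I i) (y' (B i))) :=
    Ge.prod _ _ (fun _ => _) fun i _ => hW _ _
  rw [Finset.sum_const, Finset.card_univ, Fintype.card_fin, nsmul_eq_mul] at h2
  have h3 : Ge Q 0 (comp E' v B) := hv Q hQ _ fun i => hl.pres _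
  have h4 := h2.mul h3
  refine h4.mono (le_of_eq ?_)
  ring

end

section

variable {K L : Type} [Field K] [Field L] [Algebra ℂ K] [Algebra ℂ L]
  [Algebra K L] [IsScalarTower ℂ K L] [FiniteDimensional K L] {n : ℕ}
  {P : Place ℂ K} {Q : Place ℂ L} {e : ℕ} {y : Fin n → K} {E : Fin n → Derivation ℂ K K}
  {i0 : Fin n} {y' : Fin n → L} {E' : Fin n → Derivation ℂ L L} {j0 : Fin n}

/-- the Jacobian determinant of a finite map: an upper bound of its order -/
theorem jac_le [Algebra.EssFiniteType ℂ L] (hn : Algebra.trdeg ℂ K = n) (h : Over Q P e)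
    (hQ : Divisorial n Q) (hl : Loc P y E i0) (hl' : Loc Q y' E' j0) :
    (Matrix.of fun i j => E' i (algebraMap K L (y j))).det ≠ 0 ∧
      Q.ord (Matrix.of fun i j => E' i (algebraMap K L (y j))).det ≤ e - 1 := by
  classical
  have hnL : Algebra.trdeg ℂ L = n := trdeg_up (K := K) hn
  choose T hT using fun i : Fin n => exists_lift (L := L) hn (lc y i0 i • E i)
  have hTlog : ∀ i, DerLog Q (T i) := fun i => lift_log h (hl.log i) (hT i)
  obtain ⟨J, hJ⟩ : ∃ J : Matrix (Fin n) (Fin n) L,
    J = Matrix.of fun i j => E' i (algebraMap K L (y j)) := ⟨_, rfl⟩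
  let W : Matrix (Fin n) (Fin n) L := Matrix.of fun i b => T i (y' b)
  have hWJ : W * J = Matrix.diagonal fun i => algebraMap K L (lc y i0 i) := by
    ext k j
    rw [Matrix.mul_apply]
    have h4 := congrArg (fun D : Derivation ℂ L L => D (algebraMap K L (y j)))
      (Pool.Agent.W73.PG.PULL.expand y' hl'.bas E' hl'.dual (T k))
    have h5 : T k (algebraMap K L (y j)) = Matrix.diagonal (fun i => algebraMap K L (lc y i0 i)) k j := by
      rw [hT, Matrix.diagonal_apply]
      change algebraMap K L (lc y i0 k * E k (y j)) = _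
      rw [hl.dual]
      split_ifs
      · rw [mul_one]
      · rw [mul_zero, map_zero]
    rw [← h5, ← h4, hJ]
    exact (ND.sum_smul_app _ _ _).symm
  have hdet : W.det * J.det = algebraMap K L (y i0) := by
    rw [← Matrix.det_mul, hWJ, Matrix.det_diagonal, ← map_prod, prod_lc]
  have hy0 : algebraMap K L (y i0) ≠ 0 := by
    rw [Ne, map_eq_zero]
    exact hl.ne
  have hJ0 : J.det ≠ 0 := fun h0 => hy0 (by rw [← hdet, h0, mul_zero])
  have hW0 : W.det ≠ 0 := fun h0 => hy0 (by rw [← hdet, h0, zero_mul])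
  have h1 : W.det = 0 ∨ (0 : ℝ) + (1 : ℕ) ≤ Q.ord W.det := by
    have h2 := log_gain (k := ℂ) hnL hQ (m := 1) (W := ND.frm y' 1 1) (ND.frm_pluri _ _ _) (c := 0)
      (fun G hG => by
        have h3 : Ge Q 0 (ND.frm y' 1 1 G) := by
          unfold ND.frm
          rw [pow_one, mul_one]
          exact ge_det Q _ fun i j => hG i _ (hl'.reg j)
        rcases h3 with h3 | h3
        · exact Or.inl h3
        · right
          exact_mod_cast h3) hTlog
    unfold ND.frm at h2
    rw [pow_one, mul_one] at h2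
    exact h2
  have h2 : (1 : ℤ) ≤ Q.ord W.det := by
    have h3 := h1.resolve_left hW0
    rw [zero_add, Nat.cast_one] at h3
    exact_mod_cast h3
  have h3 := congrArg Q.ord hdet
  rw [Q.ord_mul hW0 hJ0, h.2, hl.unif, mul_one] at h3
  rw [← hJ]
  exact ⟨hJ0, by omega⟩

end

end Pool.Agent.Run7.h718.NE
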