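import Pool.Agent.N145.SX.PullK
import Pool.Agent.Run7.h718.NE.Defs
import Pool.Agent.Run7.h718.ND.Frm

/-!
Covariant tensors on function fields and their pull-backs.
-/

set_option autoImplicit false
set_option linter.overlappingInstances false
set_option linter.unusedSectionVars false
set_option maxHeartbeats 1000000
set_option synthInstance.maxHeartbeats 400000

open FF Pool.Agent.W602.GT Pool.Agent.W603.LV Pool.Agent.W619.PQ

namespace Pool.Agent.Run7.h718.NE

section

variable {A B C : Type} [Field A] [Field B] [Field C] [Algebra ℂ A] [Algebra ℂ B] [Algebra ℂ C]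
  {n n' n'' M : ℕ}

/-- the components of the pull-back of a tensor with given components -/
noncomputable def pull (φ : A →ₐ[ℂ] B) (x : Fin n → A) (E : Fin n' → Derivation ℂ B B) :
    ((Fin M → Fin n) → A) →ₛₗ[(φ : A →+* B)] ((Fin M → Fin n') → B) where
  toFun θ I := ∑ J : Fin M → Fin n, φ (θ J) * ∏ i, E (I i) (φ (x (J i)))
  map_add' θ η := by
    funext I
    simp only [Pi.add_apply, map_add, add_mul, Finset.sum_add_distrib]
  map_smul' c θ := by
    funext I
    simp only [Pi.smul_apply, smul_eq_mul, map_mul, Finset.mul_sum]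
    refine Finset.sum_congr rfl fun J _ => ?_
    rw [mul_assoc]
    rfl

theorem pull_apply (φ : A →ₐ[ℂ] B) (x : Fin n → A) (E : Fin n' → Derivation ℂ B B)
    (θ : (Fin M → Fin n) → A) (I : Fin M → Fin n') :
    pull φ x E θ I = ∑ J : Fin M → Fin n, φ (θ J) * ∏ i, E (I i) (φ (x (J i))) := rfl

/-- the chain rule -/
theorem chain' (φ : A →ₐ[ℂ] B) {X : Fin n → A} (hX : IsTranscendenceBasis ℂ X)
    {E : Fin n → Derivation ℂ A A} (hE : ∀ i j, E i (X j) = if i = j then 1 else 0)
    (D : Derivation ℂ B B) (f : A) : D (φ f) = ∑ c, D (φ (X c)) * φ (E c f) := by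
  let iA : Algebra A B := φ.toRingHom.toAlgebra
  have hst : IsScalarTower ℂ A B := IsScalarTower.of_algebraMap_eq fun c => (φ.commutes c).symm
  exact Pool.Agent.W73.PG.PULL.chain X hX E hE D f

theorem prod_sum_univ {R : Type} [CommSemiring R] {a b : ℕ} (F : Fin a → Fin b → R) :
    ∏ i, ∑ j, F i j = ∑ I : Fin a → Fin b, ∏ i, F i (I i) := by
  classical
  rw [Finset.prod_univ_sum, Fintype.piFinset_univ]

theorem pull_pull (τ : A →ₐ[ℂ] B) (σ : B →ₐ[ℂ] C) {X : Fin n' → B}
    (hX : IsTranscendenceBasis ℂ X) {E : Fin n' → Derivation ℂ B B}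
    (hE : ∀ i j, E i (X j) = if i = j then 1 else 0) (x : Fin n → A)
    (F : Fin n'' → Derivation ℂ C C) (θ : (Fin M → Fin n) → A) :
    pull σ X F (pull τ x E θ) = pull (σ.comp τ) x F θ := by
  funext I
  simp only [pull_apply]
  have h1 : ∀ J : Fin M → Fin n, ∏ i, F (I i) ((σ.comp τ) (x (J i))) =
      ∑ I' : Fin M → Fin n', (∏ i, F (I i) (σ (X (I' i)))) * ∏ i, σ (E (I' i) (τ (x (J i)))) := by
    intro J
    have h2 : ∀ i, F (I i) ((σ.comp τ) (x (J i))) =
        ∑ c, F (I i) (σ (X c)) * σ (E c (τ (x (J i)))) := fun i => chain' σ hX hE _ _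
    simp only [h2, prod_sum_univ, Finset.prod_mul_distrib]
  simp only [h1, map_sum, map_mul, map_prod, Finset.sum_mul, Finset.mul_sum]
  rw [Finset.sum_comm]
  refine Finset.sum_congr rfl fun J _ => Finset.sum_congr rfl fun I' _ => ?_
  rw [AlgHom.comp_apply]
  ring

end

section

variable {K : Type} [Field K] [Algebra ℂ K] {n M : ℕ}

/-- the components of a tensor -/
noncomputable def comp (E : Fin n → Derivation ℂ K K)
    (θ : MultilinearMap K (fun _ : Fin M => Derivation ℂ K K) K) (J : Fin M → Fin n) : K :=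
  θ fun i => E (J i)

/-- expansion of the values -/
theorem expand_tensor (θ : MultilinearMap K (fun _ : Fin M => Derivation ℂ K K) K) {y : Fin n → K}
    (hy : IsTranscendenceBasis ℂ y) {E : Fin n → Derivation ℂ K K}
    (hE : ∀ i j, E i (y j) = if i = j then 1 else 0) (D : Fin M → Derivation ℂ K K) :
    θ D = ∑ J : Fin M → Fin n, (∏ i, D i (y (J i))) * comp E θ J := by
  classical
  have h1 : D = fun i => ∑ b, D i (y b) • E b := by
    funext i
    exact (Pool.Agent.W73.PG.PULL.expand y hy E hE (D i)).symm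
  conv_lhs => rw [h1]
  rw [θ.map_sum]
  refine Finset.sum_congr rfl fun J _ => ?_
  rw [θ.map_smul_univ, smul_eq_mul]
  rfl

variable {L : Type} [Field L] [Algebra ℂ L]

/-- the values of the pull-back of a tensor -/
noncomputable def pval (τ : K →ₐ[ℂ] L) (x : Fin n → K) (E : Fin n → Derivation ℂ K K)
    (θ : MultilinearMap K (fun _ : Fin M => Derivation ℂ K K) K) (D : Fin M → Derivation ℂ L L) :
    L := ∑ J : Fin M → Fin n, τ (comp E θ J) * ∏ i, D i (τ (x (J i)))

/-- independence of the frame -/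
theorem pval_frame (τ : K →ₐ[ℂ] L) {x y : Fin n → K} (hx : IsTranscendenceBasis ℂ x)
    (hy : IsTranscendenceBasis ℂ y) {E F : Fin n → Derivation ℂ K K}
    (hE : ∀ i j, E i (x j) = if i = j then 1 else 0)
    (hF : ∀ i j, F i (y j) = if i = j then 1 else 0)
    (θ : MultilinearMap K (fun _ : Fin M => Derivation ℂ K K) K) (D : Fin M → Derivation ℂ L L) :
    pval τ x E θ D = pval τ y F θ D := by
  unfold pval
  have h1 : ∀ J : Fin M → Fin n, comp E θ J =
      ∑ J' : Fin M → Fin n, (∏ i, E (J i) (y (J' i))) * comp F θ J' := fun J =>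
    expand_tensor θ hy hF _
  have h2 : ∀ J' : Fin M → Fin n, ∏ i, D i (τ (y (J' i))) =
      ∑ J : Fin M → Fin n, (∏ i, D i (τ (x (J i)))) * ∏ i, τ (E (J i) (y (J' i))) := by
    intro J'
    have h3 : ∀ i, D i (τ (y (J' i))) = ∑ c, D i (τ (x c)) * τ (E c (y (J' i))) := fun i =>
      chain' τ hx hE _ _
    simp only [h3, prod_sum_univ, Finset.prod_mul_distrib]
  simp only [h2, Finset.mul_sum]
  conv_lhs => simp only [h1, map_sum, map_mul, map_prod, Finset.sum_mul]
  rw [Finset.sum_comm]
  refine Finset.sum_congr rfl fun J _ => Finset.sum_congr rfl fun I' _ => ?_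
  ring

/-- **Pull-backs of regular tensors are regular.** -/
theorem reg_pval [Algebra.EssFiniteType ℂ K] {N : ℕ} (hn : Algebra.trdeg ℂ K = n)
    (hN : Algebra.trdeg ℂ L = N) (τ : K →ₐ[ℂ] L) {x : Fin n → K} (hx : IsTranscendenceBasis ℂ x)
    {E : Fin n → Derivation ℂ K K} (hE : ∀ i j, E i (x j) = if i = j then 1 else 0)
    {θ : MultilinearMap K (fun _ : Fin M => Derivation ℂ K K) K} (hθ : RegTensor n θ)
    (Q : Place ℂ L) (hQ : Divisorial N Q) {D : Fin M → Derivation ℂ L L}
    (hD : ∀ i, DerReg Q (D i)) : Q.Reg (pval τ x E θ D) := by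
  classical
  let iA : Algebra K L := τ.toRingHom.toAlgebra
  have hst : IsScalarTower ℂ K L := IsScalarTower.of_algebraMap_eq fun c => (τ.commutes c).symm
  have hprod : ∀ (g : Fin M → L), (∀ i, Q.Reg (g i)) → Q.Reg (∏ i, g i) := by
    intro g hg
    refine Finset.prod_induction g (fun a => Q.Reg a) (fun a b ha hb => Q.reg_mul ha hb)
      Q.reg_one fun i _ => hg i
  have hsum : ∀ (g : (Fin M → Fin n) → L), (∀ J, Q.Reg (g J)) → Q.Reg (∑ J, g J) := by
    intro g hg
    refine Finset.sum_induction g (fun a => Q.Reg a) (fun a b ha hb => Q.reg_add ha hb)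
      Q.reg_zero fun J _ => hg J
  by_cases htriv : ∃ f : K, Q.ord (algebraMap K L f) ≠ 0
  · obtain ⟨e, P, hP⟩ := exists_over Q htriv
    have hPd : Divisorial n P := Pool.Agent.Y71.NT.t_abh K L n N hn hN Q P e hP hQ
    obtain ⟨yP, EP, i0, hbas, hdual, -, hyreg, hpres⟩ :=
      Pool.Agent.W240.PG.Frame.main.{0, 0} Pool.Agent.W762.PG.main ℂ K n hn
        (fun y hy => Pool.Agent.Y297.NT.fd_basis hy) P hPd
    rw [pval_frame τ hx hbas hE hdual]
    refine hsum _ fun J => Q.reg_mul ?_ (hprod _ fun i => ?_)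
    · exact hP.reg.2 (hθ P hPd _ fun i => hpres _)
    · exact hD i _ (hP.reg.2 (hyreg _))
  · push Not at htriv
    have h0 : ∀ f : K, Q.Reg (τ f) := fun f => Or.inr (htriv f).ge
    exact hsum _ fun J => Q.reg_mul (h0 _) (hprod _ fun i => hD i _ (h0 _))

/-- an independent family is part of a transcendence basis -/
theorem basis_ext {ι : Type} {t : ι → L} (ht : AlgebraicIndependent ℂ t) :
    ∃ (κ : Type) (s : κ → L), IsTranscendenceBasis ℂ (Sum.elim t s) := by
  obtain ⟨S, hS1, hS2⟩ := exists_isTranscendenceBasis_superset (s := Set.range t)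
    ht.coe_range
  classical
  refine ⟨(S \ Set.range t : Set L), Subtype.val, ?_⟩
  have hinj : Function.Injective t := ht.injective
  let f : ι ⊕ (S \ Set.range t : Set L) → S := Sum.elim (fun i => ⟨t i, hS1 ⟨i, rfl⟩⟩)
    fun s => ⟨s, s.2.1⟩
  have hf : Function.Bijective f := by
    constructor
    · rintro (i | s) (j | s') h
      · exact congrArg _ (hinj (congrArg Subtype.val h))
      · exact absurd ⟨i, congrArg Subtype.val h⟩ s'.2.2
      · exact absurd ⟨j, (congrArg Subtype.val h).symm⟩ s.2.2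
      · have h' := congrArg Subtype.val h
        exact congrArg Sum.inr (Subtype.ext h')
    · rintro ⟨x, hx⟩
      by_cases h : x ∈ Set.range t
      · obtain ⟨i, rfl⟩ := h
        exact ⟨Sum.inl i, rfl⟩
      · exact ⟨Sum.inr ⟨x, hx, h⟩, rfl⟩
  have h1 : IsTranscendenceBasis ℂ ((Subtype.val : S → L) ∘ (Equiv.ofBijective f hf)) :=
    hS2.comp_equiv _
  convert h1 using 1
  funext x
  rcases x with i | s <;> rfl

/-- **Pull-backs are not zero.** -/
theorem pull_ne (τ : K →ₐ[ℂ] L) {x : Fin n → K} (hx : IsTranscendenceBasis ℂ x)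
    {E : Fin n → Derivation ℂ K K} (hE : ∀ i j, E i (x j) = if i = j then 1 else 0)
    {N : ℕ} {X : Fin N → L} (hX : IsTranscendenceBasis ℂ X) {F : Fin N → Derivation ℂ L L}
    (hF : ∀ i j, F i (X j) = if i = j then 1 else 0)
    {θ : MultilinearMap K (fun _ : Fin M => Derivation ℂ K K) K} (hθ : θ ≠ 0) :
    pull τ x F (comp E θ) ≠ 0 := by
  classical
  intro h0
  apply hθ
  have hJ : ∀ J, comp E θ J = 0 := by
    intro J0
    have hind : AlgebraicIndependent ℂ (fun i => τ (x i)) := hx.1.map' τ.toRingHom.injective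
    obtain ⟨κ, s, hs⟩ := basis_ext hind
    choose D hD using fun j : Fin n => exists_der _ hs
      (Sum.elim (fun i => if j = i then (1 : L) else 0) fun _ => 0)
    have hD' : ∀ j i, D j (τ (x i)) = if j = i then 1 else 0 := fun j i => hD j (Sum.inl i)
    -- the value at the derivations
    have h1 : pval τ x E θ (fun i => D (J0 i)) = τ (comp E θ J0) := by
      unfold pval
      rw [Finset.sum_eq_single J0]
      · simp [hD']
      · intro J _ hJ
        obtain ⟨i, hi⟩ := Function.ne_iff.1 hJ
        have h2 : ∏ i, D (J0 i) (τ (x (J i))) = 0 := by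
          refine Finset.prod_eq_zero (Finset.mem_univ i) ?_
          rw [hD', if_neg (Ne.symm hi)]
        rw [h2, mul_zero]
      · intro h
        exact absurd (Finset.mem_univ _) h
    have h2 : pval τ x E θ (fun i => D (J0 i)) =
        ∑ I : Fin M → Fin N, (∏ i, D (J0 i) (X (I i))) * pull τ x F (comp E θ) I := by
      unfold pval
      simp only [pull_apply, Finset.mul_sum]
      rw [Finset.sum_comm]
      refine Finset.sum_congr rfl fun J _ => ?_
      have h3 : ∀ i, D (J0 i) (τ (x (J i))) = ∑ c, D (J0 i) (X c) * F c (τ (x (J i))) := by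
        intro i
        have h4 := congrArg (fun G : Derivation ℂ L L => G (τ (x (J i))))
          (Pool.Agent.W73.PG.PULL.expand X hX F hF (D (J0 i)))
        rw [← h4]
        exact ND.sum_smul_app _ _ _
      simp only [h3, prod_sum_univ, Finset.prod_mul_distrib, Finset.mul_sum]
      refine Finset.sum_congr rfl fun I _ => ?_
      ring
    rw [h1] at h2
    have h3 : τ (comp E θ J0) = 0 := by
      rw [h2]
      refine Finset.sum_eq_zero fun I _ => ?_
      rw [h0]
      simp
    exact τ.toRingHom.injective (h3.trans (map_zero τ).symm)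
  ext D
  rw [expand_tensor θ hx hE D]
  simp [hJ]

end

end Pool.Agent.Run7.h718.NE
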